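import Pool.Agent.Work.MP_db9399_tkn_helper59.EQ3

/-!
# MP_db9399, all scales: smoothing with three windows, palettes of any size: statement (helper59)
-/

set_option autoImplicit false

namespace Pool.Agent.Work.MP_db9399_tkn

open Finset Classical
open Pool.Agent.Work.MP_db9399_tk

universe u

/-- the tests: `k` (deviations), `g` (upper bounds) -/
structure TstS {V I J J' C : Type*} [Fintype V] [Fintype J] [Fintype J'] [Fintype C]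
    (H : SimpleGraph V) (φ : V → V → C) (nd : V → Option (I × Bool)) (k : J → V → ℝ)
    (g : J' → V → ℝ) (K0 S L : ℕ) (Λ A M : ℝ) : Prop where
  hks : ∀ r v, k r v ≠ 0 → nd v = none
  hgs : ∀ j v, g j v ≠ 0 → nd v = none
  hK : ∀ r v, k r v ≠ 0 → (mis H φ v).card ≤ K0
  hK1 : ∀ j v, g j v ≠ 0 → (mis H φ v).card ≤ K0
  hS : ∀ r, (univ.filter (fun v => k r v ≠ 0)).card ≤ S
  hS1 : ∀ j, (univ.filter (fun v => g j v ≠ 0)).card ≤ S
  hL : ∀ v, (univ.filter (fun r => k r v ≠ 0)).card ≤ L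
  hL1 : ∀ v, (univ.filter (fun j => g j v ≠ 0)).card ≤ L
  hg0 : ∀ j v, 0 ≤ g j v
  hg1 : ∀ j v, g j v ≤ 1
  hA : ∀ r v, |k r v| ≤ A
  hL0 : 1 ≤ L
  hΛ0 : 1 ≤ Λ
  hΛ : 256 * ((S : ℝ) * K0 + 1) * L * (M + 1) ≤ Real.exp Λ

/-- **Smoothing with three windows.** -/
def Stmt_SMP : Prop :=
  ∃ c : ℝ, 1 ≤ c ∧ ∀ {V I J J' : Type u} [Fintype V] [Fintype J] [Fintype J'] (P : ℕ)
    (H : SimpleGraph V) (φ : V → V → Fin P) (nd : V → Option (I × Bool)) (k : J → V → ℝ)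
    (g : J' → V → ℝ) (K0 S L : ℕ) (Λ A : ℝ), 1 ≤ P → PEC H φ →
    TstS H φ nd k g K0 S L Λ A P →
    ∃ φ' : V → V → Fin P, PEC H φ' ∧
      MonoX H φ φ' (fun (x : (I × Bool) ⊕ I) (v : V) => fx x (nd v)) ∧
      (∀ r, ∑ b, |wt H φ' (k r) b - (∑ v, k r v * ((mis H φ v).card : ℝ)) / P| ≤
        c * Real.sqrt (KK H φ (k r)) * (Real.sqrt P + (Nat.log 2 P : ℝ) * Real.sqrt Λ)) ∧
      (∀ r, ∑ b, (wt H φ' (k r) b - (∑ v, k r v * ((mis H φ v).card : ℝ)) / P) ^ 2 ≤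
        c * (KK H φ (k r) + Λ ^ 2 * A ^ 2 + Λ * (Nat.log 2 P : ℝ) * KK H φ (k r) / P)) ∧
      ∀ j b, wt H φ' (g j) b ≤ c * ((∑ v, g j v * ((mis H φ v).card : ℝ)) / P + Λ)

end Pool.Agent.Work.MP_db9399_tkn
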