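import Pool.Agent.Work.MP_db9399_tkn_helper59.SMP4
import Pool.Agent.Work.MP_db9399_all_helper34.VIZ
import Pool.Agent.Work.MP_db9399_sg.Interface

/-!
# MP_db9399, SWG, block TOKN (helper59): assembly
-/

set_option autoImplicit false

namespace Pool.Agent.Work.MP_db9399_tkn

open Finset Classical
open Pool.Agent.Work.MP_db9399_all (nb)
open Pool.Agent.Work.MP_db9399_tk
open Pool.Agent.Work.MP_db9399_cg (sx sp)
open Pool.Agent.Work.MP_db9399_sg (nsd sgn Mts TstN Stmt_TOKN)

universe u v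

section windows

theorem sum_dev (n : ℕ) (x : Fin n → ℝ) (lo hi μ : ℝ) (h : hi = lo + 2)
    (hx : ∀ b, lo ≤ x b ∧ x b ≤ hi) (hμ : ∑ b, x b = n * μ) (hμ1 : lo ≤ μ ∧ μ ≤ hi) :
    ∑ b, |x b - μ| ≤ n := by
  have h1 : ∀ b, |x b - μ| ≤ ((hi - x b) * (μ - lo) + (x b - lo) * (hi - μ)) / 2 := by
    intro b
    obtain ⟨h2, h3⟩ := hx b
    obtain ⟨h4, h5⟩ := hμ1
    rw [h] at h3 h5 ⊢
    rw [abs_le]
    constructor
    · nlinarith [mul_nonneg (sub_nonneg.2 h2) (sub_nonneg.2 h5),
        mul_nonneg (sub_nonneg.2 h3) (sub_nonneg.2 h4), mul_nonneg (sub_nonneg.2 h2)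
        (sub_nonneg.2 h4), mul_nonneg (sub_nonneg.2 h3) (sub_nonneg.2 h5)]
    · nlinarith [mul_nonneg (sub_nonneg.2 h2) (sub_nonneg.2 h5),
        mul_nonneg (sub_nonneg.2 h3) (sub_nonneg.2 h4), mul_nonneg (sub_nonneg.2 h2)
        (sub_nonneg.2 h4), mul_nonneg (sub_nonneg.2 h3) (sub_nonneg.2 h5)]
  refine (sum_le_sum fun b _ => h1 b).trans ?_
  have h2 : ∑ b, ((hi - x b) * (μ - lo) + (x b - lo) * (hi - μ)) / 2 =
      n * ((hi - μ) * (μ - lo)) := by
    have h3 : ∀ b, ((hi - x b) * (μ - lo) + (x b - lo) * (hi - μ)) / 2 =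
        (hi * (μ - lo) - lo * (hi - μ)) / 2 + ((hi - μ) - (μ - lo)) / 2 * x b := by
      intro b
      ring
    rw [sum_congr rfl fun b _ => h3 b, sum_add_distrib, ← mul_sum, hμ, sum_const, card_univ,
      Fintype.card_fin, nsmul_eq_mul]
    ring
  rw [h2]
  obtain ⟨h4, h5⟩ := hμ1
  have h6 : (hi - μ) * (μ - lo) ≤ 1 := by
    rw [h]
    nlinarith [sq_nonneg (lo + 1 - μ)]
  have h7 : (0 : ℝ) ≤ n := Nat.cast_nonneg n
  nlinarith

/-- numbers -/
theorem numT (a : ℝ) (ha : 0 < a) (ha1 : a ≤ 1 / 100) (T : ℝ) : ∃ d0 : ℕ, ∀ d : ℕ, d0 ≤ d →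
    100 ≤ (d : ℝ) ∧ T ≤ (d : ℝ) ^ (a / 20) ∧ 3 * Real.log d ≤ (d : ℝ) ^ (a / 20) ∧
    ((d : ℝ) ^ (a / 20)) ^ 10 ≤ d := by
  have t1 : Filter.Tendsto (fun d : ℕ => (d : ℝ)) Filter.atTop Filter.atTop :=
    tendsto_natCast_atTop_atTop
  have h1 := t1.eventually_ge_atTop 100
  have h2 := ((tendsto_rpow_atTop (by positivity : 0 < a / 20)).comp t1).eventually_ge_atTop T
  have h3 : ∀ᶠ d : ℕ in Filter.atTop, 3 * Real.log d ≤ (d : ℝ) ^ (a / 20) := by
    have h := (isLittleO_log_rpow_atTop (by positivity : 0 < a / 20)).bound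
      (by norm_num : (0 : ℝ) < 1 / 3)
    filter_upwards [t1.eventually h, h1] with d hd hd1
    have h4 : 0 ≤ Real.log d := Real.log_nonneg (by linarith)
    have h5 : (0 : ℝ) ≤ (d : ℝ) ^ (a / 20) := by positivity
    rw [Real.norm_of_nonneg h4, Real.norm_of_nonneg h5] at hd
    linarith
  obtain ⟨d0, hd0⟩ := Filter.eventually_atTop.1 (h1.and (h2.and h3))
  refine ⟨d0, fun d hd => ?_⟩
  obtain ⟨k1, k2, k3⟩ := hd0 d hd
  refine ⟨k1, k2, k3, ?_⟩
  rw [← Real.rpow_natCast, ← Real.rpow_mul (by linarith)]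
  calc (d : ℝ) ^ (a / 20 * ((10 : ℕ) : ℝ)) ≤ (d : ℝ) ^ (1 : ℝ) := by
        refine Real.rpow_le_rpow_of_exponent_le (by linarith) ?_
        push_cast
        linarith
    _ = d := Real.rpow_one _

end windows

section translate

variable {V I : Type u} [Fintype V] [Fintype I] {P : ℕ}

omit [Fintype I] in
/-- the matchings of a colouring -/
theorem mts_of (E : SimpleGraph V) (φ : V → V → Fin P) (h : PEC E φ) :
    ∃ N : Fin P → V → V, Mts E N ∧ (∀ v w, E.Adj v w → ∃ b, N b v = w) ∧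
      ∀ b v, N b v = v ↔ b ∈ mis E φ v := by
  set N : Fin P → V → V := fun b v =>
    if h : ∃ w, E.Adj v w ∧ φ v w = b then Classical.choose h else v with hN
  have hNs : ∀ b v w, E.Adj v w → φ v w = b → N b v = w := by
    intro b v w h1 h2
    have h' : ∃ w, E.Adj v w ∧ φ v w = b := ⟨w, h1, h2⟩
    simp only [hN]
    rw [dif_pos h']
    have h3 := Classical.choose_spec h'
    exact h.inj v _ w h3.1 h1 (h3.2.trans h2.symm)
  have hNn : ∀ b v, N b v ≠ v → E.Adj v (N b v) ∧ φ v (N b v) = b := by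
    intro b v h'
    by_cases h1 : ∃ w, E.Adj v w ∧ φ v w = b
    · obtain ⟨w, h2, h3⟩ := h1
      rw [hNs b v w h2 h3]
      exact ⟨h2, h3⟩
    · exact absurd (by simp only [hN]; rw [dif_neg h1]) h'
  refine ⟨N, ⟨?_, fun b v h' => (hNn b v h').1, ?_⟩, fun v w h1 => ⟨φ v w, hNs _ v w h1 rfl⟩, ?_⟩
  · intro b v
    by_cases h' : N b v = v
    · rw [h', h']
    · obtain ⟨h2, h3⟩ := hNn b v h'
      exact hNs b _ v h2.symm (by rw [h.sym, h3])
  · intro b b' v h1 h2
    have h3 := hNn b v h1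
    have h4 := hNn b' v (h2 ▸ h1)
    rw [← h3.2, ← h4.2, h2]
  · intro b v
    rw [mem_mis]
    constructor
    · intro h' w h1 h2
      rw [hNs b v w h1 h2] at h'
      exact h1.ne h'.symm
    · intro h'
      by_contra h1
      obtain ⟨h2, h3⟩ := hNn b v h1
      exact h' _ h2 h3

/-- the side of a node -/
theorem wt_sd (E : SimpleGraph V) (φ : V → V → Fin P) (N : Fin P → V → V)
    (hN : ∀ b v, N b v = v ↔ b ∈ mis E φ v) (nd : V → Option (I × Bool)) (i : I) (s : Bool)
    (b : Fin P) : wt E φ (fun v => sd (i, s) (nd v)) b =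
      ((nsd nd i s).card : ℝ) - (((nsd nd i s).filter fun v => N b v ≠ v).card : ℝ) := by
  have h1 : (((nsd nd i s).filter fun v => N b v = v).card : ℝ) +
      (((nsd nd i s).filter fun v => N b v ≠ v).card : ℝ) = ((nsd nd i s).card : ℝ) := by
    rw [← Finset.card_filter_add_card_filter_not (s := nsd nd i s) (fun v => N b v = v)]
    push_cast
    rfl
  rw [← h1, add_sub_cancel_right]
  unfold wt nsd
  rw [filter_filter, card_filter, Nat.cast_sum]
  refine sum_congr rfl fun v _ => ?_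
  unfold sd
  by_cases h2 : b ∈ mis E φ v
  · rw [if_pos h2]
    by_cases h3 : nd v = some (i, s)
    · simp only [h3, (hN b v).2 h2, and_self, if_true, Nat.cast_one]
    · simp only [h3, false_and, if_false, Nat.cast_zero]
  · rw [if_neg h2, if_neg (fun h => h2 ((hN b v).1 h.2)), Nat.cast_zero]

theorem wt_sn (E : SimpleGraph V) (φ : V → V → Fin P) (N : Fin P → V → V)
    (hN : ∀ b v, N b v = v ↔ b ∈ mis E φ v) (nd : V → Option (I × Bool)) (i : I)
    (b : Fin P) : wt E φ (fun v => sn i (nd v)) b =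
      ((nsd nd i false).card : ℝ) - (nsd nd i true).card - (sgn nd N i b : ℝ) := by
  have h1 : wt E φ (fun v => sn i (nd v)) b = wt E φ (fun v => sd (i, false) (nd v)) b -
      wt E φ (fun v => sd (i, true) (nd v)) b := by
    unfold wt
    rw [← sum_sub_distrib]
    refine sum_congr rfl fun v _ => ?_
    unfold sn
    split_ifs <;> ring
  rw [h1, wt_sd E φ N hN, wt_sd E φ N hN]
  unfold sgn
  push_cast
  ring

/-- windows -/
theorem win (hP : 1 ≤ P) (x : Fin P → ℝ) (hx : ∀ b b', |x b - x b'| ≤ 2) :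
    (∀ b, |x b - (∑ b', x b') / P| ≤ 2) ∧ ∑ b, |x b - (∑ b', x b') / P| ≤ P := by
  have hP0 : (0 : ℝ) < P := by exact_mod_cast hP
  obtain ⟨c, _, hc⟩ := exists_min_image univ x ⟨⟨0, by omega⟩, mem_univ _⟩
  have h2 : ∀ b, x c ≤ x b ∧ x b ≤ x c + 2 := by
    intro b
    have h3 := hx b c
    rw [abs_le] at h3
    exact ⟨hc b (mem_univ b), by linarith [h3.2]⟩
  have h3 : x c ≤ (∑ b', x b') / P := by
    rw [le_div_iff₀ hP0]
    calc x c * P = ∑ _b : Fin P, x c := by
          rw [sum_const, card_univ, Fintype.card_fin, nsmul_eq_mul, mul_comm]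
      _ ≤ ∑ b', x b' := sum_le_sum fun b _ => (h2 b).1
  have h4 : (∑ b', x b') / P ≤ x c + 2 := by
    rw [div_le_iff₀ hP0]
    calc ∑ b', x b' ≤ ∑ _b : Fin P, (x c + 2) := sum_le_sum fun b _ => (h2 b).2
      _ = (x c + 2) * P := by
          rw [sum_const, card_univ, Fintype.card_fin, nsmul_eq_mul, mul_comm]
  refine ⟨fun b => ?_, ?_⟩
  · rw [abs_le]
    obtain ⟨h5, h6⟩ := h2 b
    constructor <;> linarith
  · exact sum_dev P x (x c) (x c + 2) _ rfl h2 (by field_simp) ⟨h3, h4⟩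

/-- conclusions on the nodes -/
theorem nodes {I' : Type u} (pr : I → I') (E : SimpleGraph V) (φ : V → V → Fin P) (h : PEC E φ)
    (N : Fin P → V → V)
    (hN : ∀ b v, N b v = v ↔ b ∈ mis E φ v) (nd : V → Option (I × Bool)) (hP : 1 ≤ P)
    (hS : Spr E φ (f4 pr nd)) :
    (∀ i b, |(sgn nd N i b : ℝ) - (∑ b', (sgn nd N i b' : ℝ)) / P| ≤ 2) ∧
      (∀ i, ∑ b, |(sgn nd N i b : ℝ) - (∑ b', (sgn nd N i b' : ℝ)) / P| ≤ P) ∧
      (∀ i' b, |(∑ i with pr i = i', (sgn nd N i b : ℝ)) -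
          (∑ b', ∑ i with pr i = i', (sgn nd N i b' : ℝ)) / P| ≤ 2) ∧
      (∀ i', ∑ b, |(∑ i with pr i = i', (sgn nd N i b : ℝ)) -
          (∑ b', ∑ i with pr i = i', (sgn nd N i b' : ℝ)) / P| ≤ P) ∧
      ∀ i s b, (((nsd nd i s).filter fun v => N b v ≠ v).card : ℝ) ≤
        (∑ v ∈ nsd nd i s, ((nb E v).card : ℝ)) / P + 2 := by
  have hP0 : (0 : ℝ) < P := by exact_mod_cast hP
  have hsn : ∀ i b, (sgn nd N i b : ℝ) =
      ((nsd nd i false).card : ℝ) - (nsd nd i true).card - wt E φ (fun v => sn i (nd v)) b := by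
    intro i b
    rw [wt_sn E φ N hN]
    ring
  have hx1 : ∀ i, ∀ b b', |(sgn nd N i b : ℝ) - (sgn nd N i b' : ℝ)| ≤ 2 := by
    intro i b b'
    have h2 := hS (Sum.inl (Sum.inr i)) b' b
    unfold f4 at h2
    simp only [fp, fx] at h2
    rw [hsn, hsn]
    refine le_trans (le_of_eq ?_) h2
    congr 1
    ring
  have hx3 : ∀ i', ∀ b b', |(∑ i with pr i = i', (sgn nd N i b : ℝ)) -
      ∑ i with pr i = i', (sgn nd N i b' : ℝ)| ≤ 2 := by
    intro i' b b'
    have h2 := hS (Sum.inr i') b' b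
    unfold f4 at h2
    simp only [fp] at h2
    have h3 : ∀ b, wt E φ (fun v => pc pr i' (nd v)) b =
        ∑ i with pr i = i', wt E φ (fun v => sn i (nd v)) b := by
      intro b
      unfold wt
      rw [sum_comm]
      refine sum_congr rfl fun v _ => ?_
      dsimp only
      rw [pc_eq]
      split_ifs
      · rfl
      · rw [sum_const_zero]
    rw [h3, h3] at h2
    rw [← sum_sub_distrib] at h2 ⊢
    refine le_trans (le_of_eq ?_) h2
    congr 1
    refine sum_congr rfl fun i _ => ?_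
    rw [hsn, hsn]
    ring
  refine ⟨fun i b => (win hP _ (hx1 i)).1 b, fun i => (win hP _ (hx1 i)).2,
    fun i' b => (win hP _ (hx3 i')).1 b, fun i' => (win hP _ (hx3 i')).2, fun i s b => ?_⟩
  have hx2 : ∀ b b', |(((nsd nd i s).filter fun v => N b v ≠ v).card : ℝ) -
      (((nsd nd i s).filter fun v => N b' v ≠ v).card : ℝ)| ≤ 2 := by
    intro b b'
    have h2 := hS (Sum.inl (Sum.inl (i, s))) b' b
    unfold f4 at h2
    simp only [fp, fx] at h2
    rw [wt_sd E φ N hN, wt_sd E φ N hN] at h2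
    refine le_trans (le_of_eq ?_) h2
    congr 1
    ring
  have h3 := (win hP _ hx2).1 b
  rw [abs_le] at h3
  have h4 : ∑ b', (((nsd nd i s).filter fun v => N b' v ≠ v).card : ℝ) =
      ∑ v ∈ nsd nd i s, ((nb E v).card : ℝ) := by
    have h5 : ∀ b', (((nsd nd i s).filter fun v => N b' v ≠ v).card : ℝ) =
        ∑ v ∈ nsd nd i s, if b' ∈ mis E φ v then (0 : ℝ) else 1 := by
      intro b'
      rw [card_filter, Nat.cast_sum]
      refine sum_congr rfl fun v _ => ?_
      by_cases h6 : b' ∈ mis E φ v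
      · rw [if_pos h6, if_neg (fun h => h ((hN b' v).2 h6)), Nat.cast_zero]
      · rw [if_neg h6, if_pos (fun h => h6 ((hN b' v).1 h)), Nat.cast_one]
    rw [sum_congr rfl fun b' _ => h5 b', sum_comm]
    refine sum_congr rfl fun v _ => ?_
    have h6 := card_mis E φ h v
    rw [Fintype.card_fin] at h6
    have h7 : (univ.filter (fun w => E.Adj v w)) = nb E v := by
      ext w
      simp [nb]
    rw [h7] at h6
    have h8 : ∑ b' : Fin P, (if b' ∈ mis E φ v then (0 : ℝ) else 1) =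
        ∑ b' : Fin P, (1 - if b' ∈ mis E φ v then (1 : ℝ) else 0) := by
      refine sum_congr rfl fun b' _ => ?_
      split_ifs <;> ring
    have h9 : ((mis E φ v).card : ℝ) + (nb E v).card = P := by exact_mod_cast h6
    have h10 : ∑ b' : Fin P, (if b' ∈ mis E φ v then (1 : ℝ) else 0) = ((mis E φ v).card : ℝ) := by
      rw [← sum_filter, filter_mem_eq_inter, univ_inter, sum_const, nsmul_eq_mul, mul_one]
    rw [h8, sum_sub_distrib, sum_const, card_univ, Fintype.card_fin, nsmul_eq_mul, mul_one, h10]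
    linarith
  rw [h4] at h3
  linarith [h3.2]

end translate

/-- **Block TOKN.** -/
theorem stmt_TOKN : Stmt_TOKN.{u} := by
  intro a ε C ha ha1 hε hC
  obtain ⟨c, hc⟩ : ∃ c : ℝ, c = 301 := ⟨_, rfl⟩
  have hc1 : 1 ≤ c := by rw [hc]; norm_num
  have hc0 : 0 < c := by linarith
  -- the constants
  obtain ⟨e, he0, he1, he2, he3⟩ : ∃ e : ℝ, 0 < e ∧ e ≤ 1 ∧ 36 * c ^ 2 * e ≤ ε ^ 2 ∧
      12 * c * e ≤ ε := by
    refine ⟨min 1 (min (ε ^ 2 / (36 * c ^ 2)) (ε / (12 * c))), by positivity, min_le_left _ _,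
      ?_, ?_⟩
    · have h1 : min 1 (min (ε ^ 2 / (36 * c ^ 2)) (ε / (12 * c))) ≤ ε ^ 2 / (36 * c ^ 2) :=
        (min_le_right _ _).trans (min_le_left _ _)
      rw [le_div_iff₀ (by positivity)] at h1
      linarith
    · have h1 : min 1 (min (ε ^ 2 / (36 * c ^ 2)) (ε / (12 * c))) ≤ ε / (12 * c) :=
        (min_le_right _ _).trans (min_le_right _ _)
      rw [le_div_iff₀ (by positivity)] at h1
      linarith
  set T : ℝ := 100 + 15 * c + 27 * C ^ 2 * c / ε + 72 * c / ε with hT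
  obtain ⟨d0, hnum⟩ := numT a ha ha1 T
  refine ⟨e, he0, fun C' _ => ⟨d0, ?_⟩⟩
  intro V I I' J _ _ _ _ E S O nd pr D P r k hd _ hOn hsz hDP hPD hrD hSd hEd hOd hβ hT'
  obtain ⟨hD1, hyT, hly, hy10⟩ := hnum D hd
  have hd0 : (0 : ℝ) < D := by linarith
  obtain ⟨y, hydef⟩ : ∃ y, y = (D : ℝ) ^ (a / 20) := ⟨_, rfl⟩
  rw [← hydef] at hyT hly hy10
  have hx1 : 0 ≤ 27 * C ^ 2 * c / ε := by positivity
  have hx2 : 0 ≤ 72 * c / ε := by positivity
  have hy100 : 100 ≤ y := by rw [hT] at hyT; linarith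
  have hyc : 15 * c ≤ y := by rw [hT] at hyT; linarith
  have hy0 : 0 < y := by linarith
  have hsxy : sx D a = Real.exp y := by
    unfold sx
    rw [hydef]
  have hspy : sp D a = y ^ 2 := by
    unfold sp
    rw [hydef, ← Real.rpow_natCast, ← Real.rpow_mul hd0.le]
    congr 1
    push_cast
    ring
  have hsx : (D : ℝ) ^ 3 ≤ sx D a := by
    have h2 : (D : ℝ) ^ 3 = Real.exp (3 * Real.log D) := by
      rw [mul_comm, Real.exp_mul, Real.exp_log hd0]
      norm_cast
    rw [h2, hsxy]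
    exact Real.exp_le_exp.2 hly
  have hPD' : (P : ℝ) ≤ D + 1 := by exact_mod_cast hPD
  have hP2 : (D : ℝ) / 2 ≤ P := by linarith
  have hP0' : (0 : ℝ) < P := by linarith
  have hP0 : 1 ≤ P := by exact_mod_cast hP0'
  -- Vizing
  obtain ⟨t, ht1, ht2, ht3⟩ := Pool.Agent.Work.MP_db9399_all.stmt_VIZ E (P - 1) (fun v => by
    have := hEd v
    omega)
  set φ0 : V → V → Fin P := fun v w => ⟨t v w, by have := ht2 v w; omega⟩ with hφ0
  have hPEC0 : PEC E φ0 := by
    refine ⟨fun v w => ?_, fun v w w' h1 h2 h3 => ?_⟩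
    · simp only [hφ0, ht1 v w]
    · have h4 : t v w = t v w' := by
        have := congrArg Fin.val h3
        simpa [hφ0] using this
      exact ht3 v (by simpa [nb] using h1) (by simpa [nb] using h2) h4
  -- windows
  obtain ⟨φ, hPEC, hSpr⟩ := eq4 pr E nd φ0 hPEC0
  have hfil : ∀ v, (univ.filter (fun w => E.Adj v w)) = nb E v := fun v => by
    ext w
    simp [nb]
  have hmis4 : ∀ v ∈ O, (mis E φ v).card ≤ 4 := by
    intro v hv
    have h1 := card_mis E φ hPEC v
    rw [hfil, Fintype.card_fin] at h1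
    have := hOd v hv
    omega
  -- parameters
  have hsx1 : 1 ≤ sx D a := by
    rw [hsxy]
    exact Real.one_le_exp (by linarith)
  have hD3 : (D : ℝ) + 2 ≤ (D : ℝ) ^ 3 := by nlinarith [mul_pos hd0 hd0]
  have hD3' : 5120 * ((D : ℝ) + 2) ≤ (D : ℝ) ^ 3 := by
    have h1 : (100 : ℝ) * 100 ≤ (D : ℝ) * D := mul_le_mul hD1 hD1 (by norm_num) hd0.le
    have h2 : (100 : ℝ) * 100 * D ≤ (D : ℝ) * D * D := mul_le_mul_of_nonneg_right h1 hd0.le
    have h3 : (D : ℝ) ^ 3 = (D : ℝ) * D * D := by ring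
    rw [h3]
    linarith
  set L : ℕ := ⌈sx D a⌉₊ with hL
  have hL0 : sx D a ≤ L := Nat.le_ceil _
  have hL2 : (L : ℝ) ≤ 2 * sx D a := by
    have := Nat.ceil_lt_add_one (a := sx D a) (by linarith)
    linarith
  have hrL : r + 2 ≤ L := by
    have h1 : (r : ℝ) ≤ D := by exact_mod_cast hrD
    have : ((r + 2 : ℕ) : ℝ) ≤ L := by push_cast; linarith
    exact_mod_cast this
  have hkO : ∀ j v, k j v ≠ 0 → v ∈ O := by
    intro j v hv
    by_contra h
    exact hv (hT'.O j v h)
  have hgO : ∀ y v, (if S.Adj y v ∧ v ∈ O then (1 : ℝ) else 0) ≠ 0 → S.Adj y v ∧ v ∈ O := by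
    intro y v hv
    by_contra h
    exact hv (if_neg h)
  have hTst : Ts3 E φ nd k (fun (y : V) x => if S.Adj y x ∧ x ∈ O then (1 : ℝ) else 0) 4 L L
      (3 * y) (Fintype.card (Fin P)) := by
    refine ⟨fun j v hv => hOn v (hkO j v hv), fun y v hv => hOn v (hgO y v hv).2,
      fun j v hv => hmis4 v (hkO j v hv), fun y v hv => hmis4 v (hgO y v hv).2, fun i => ?_,
      fun y => ?_, fun x => ?_, fun x => ?_, fun j v => ?_, fun j v => ?_, by omega,
      by linarith, ?_⟩
    · have h2 : (((univ.filter fun x => k i x ≠ 0).card : ℕ) : ℝ) ≤ (L : ℝ) :=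
        le_trans (hT'.supp i) hL0
      exact_mod_cast h2
    · refine le_trans (card_le_card ?_) (le_trans (hSd y) hrL)
      intro x hx
      have := (hgO y x (mem_filter.1 hx).2).1
      simpa [nb] using this
    · have h2 : (((univ.filter fun i => k i x ≠ 0).card : ℕ) : ℝ) ≤ (L : ℝ) :=
        le_trans (hT'.mult x) hL0
      exact_mod_cast h2
    · refine le_trans (card_le_card ?_) (le_trans (hSd x) hrL)
      intro z hz
      have := (hgO z x (mem_filter.1 hz).2).1
      simpa [nb] using this.symm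
    · split_ifs <;> norm_num
    · split_ifs <;> norm_num
    · rw [Fintype.card_fin]
      have h3 : Real.exp (3 * y) = sx D a ^ 3 := by
        rw [hsxy, mul_comm, Real.exp_mul]
        norm_cast
      rw [h3]
      have h5 : 5120 * ((P : ℝ) + 1) ≤ sx D a := by linarith
      have h6 : 32 * ((L : ℝ) * (4 : ℕ) + 1) * L * (P + 1) ≤
          32 * (9 * sx D a) * (2 * sx D a) * (P + 1) := by
        apply mul_le_mul_of_nonneg_right _ (by positivity)
        apply mul_le_mul _ hL2 (by positivity) (by positivity)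
        push_cast
        linarith
      refine le_trans h6 ?_
      have h7 : 0 ≤ sx D a ^ 2 := sq_nonneg _
      nlinarith [mul_le_mul_of_nonneg_left h5 h7]
  obtain ⟨φ', hφ', hMono, hl1, hcnt⟩ := smoothP4 pr E φ hPEC nd k
    (fun (y : V) x => if S.Adj y x ∧ x ∈ O then (1 : ℝ) else 0) 4 L L (3 * y)
    (by rw [Fintype.card_fin]; exact hP0) hTst
  rw [Fintype.card_fin] at hl1 hcnt
  have hSpr' := spr_mono E φ φ' _ hMono hSpr
  obtain ⟨N, hM, hNcov, hN⟩ := mts_of E φ' hφ'
  obtain ⟨hn1, hn2, hn4, hn5, hn3⟩ := nodes pr E φ' hφ' N hN nd hP0 hSpr'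
  have hwt : ∀ j b, wt E φ' (k j) b = ∑ x ∈ O.filter (fun x => N b x = x), k j x := by
    intro j b
    unfold wt
    rw [sum_filter, ← sum_subset (subset_univ O)]
    · refine sum_congr rfl fun x _ => ?_
      by_cases h : b ∈ mis E φ' x
      · rw [if_pos h, if_pos ((hN b x).2 h)]
      · rw [if_neg h, if_neg (fun h' => h ((hN b x).1 h'))]
    · intro x _ hx
      rw [hT'.O j x hx]
      split_ifs <;> rfl
  have hW : ∀ j, ∑ x ∈ O, k j x * ((univ.filter fun b => N b x = x).card : ℝ) =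
      ∑ v, k j v * ((mis E φ v).card : ℝ) := by
    intro j
    rw [← sum_subset (subset_univ O)]
    · refine sum_congr rfl fun x _ => ?_
      rw [← mis_card_eq E φ φ' hPEC hφ' x]
      congr 3
      ext b
      rw [mem_filter, hN]
      exact ⟨fun h => h.2, fun h => ⟨mem_univ _, h⟩⟩
    · intro x _ hx
      rw [hT'.O j x hx, zero_mul]
  have hKK : ∀ j, KK E φ (k j) ≤ 4 * (e / D) := by
    intro j
    calc KK E φ (k j) ≤ ∑ v, k j v ^ 2 * 4 := by
          refine sum_le_sum fun v _ => ?_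
          by_cases hv : k j v = 0
          · rw [hv]
            simp
          · refine mul_le_mul_of_nonneg_left ?_ (sq_nonneg _)
            exact_mod_cast hmis4 v (hkO j v hv)
      _ ≤ 4 * (e / D) := by
          rw [← sum_mul]
          have := hT'.l2 j
          linarith
  have hKK0 : ∀ j, 0 ≤ KK E φ (k j) := fun j =>
    sum_nonneg fun v _ => mul_nonneg (sq_nonneg _) (Nat.cast_nonneg _)
  have hlog : (Nat.log 2 P : ℝ) ≤ y := by
    have h1 : (2 : ℝ) ^ (Nat.log 2 P) ≤ P := by exact_mod_cast Nat.pow_log_le_self 2 (by omega)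
    have h2 := Real.log_le_log (by positivity) h1
    rw [Real.log_pow] at h2
    have h3 : Real.log P ≤ 2 * Real.log D := by
      rw [← Real.log_rpow hd0, show (2 : ℝ) = ((2 : ℕ) : ℝ) by norm_num, Real.rpow_natCast]
      exact Real.log_le_log hP0' (by nlinarith)
    have h4 := Real.log_two_gt_d9
    have h5 : (0 : ℝ) ≤ Nat.log 2 P := Nat.cast_nonneg _
    have h6 : (Nat.log 2 P : ℝ) * (2 / 3) ≤ (Nat.log 2 P : ℝ) * Real.log 2 :=
      mul_le_mul_of_nonneg_left (by linarith) h5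
    linarith
  have hlog0 : (0 : ℝ) ≤ Nat.log 2 P := Nat.cast_nonneg _
  refine ⟨N, hM, hNcov, ?_, hn1, fun i => ?_, hn4, fun i' => ?_, fun i s b => ?_, fun j => ?_⟩
  · -- counts
    intro b v
    have h1 := hcnt v b
    have h2 : wt E φ' (fun x => if S.Adj v x ∧ x ∈ O then (1 : ℝ) else 0) b =
        (((nb S v ∩ O).filter fun w => N b w = w).card : ℝ) := by
      unfold wt
      rw [card_filter, Nat.cast_sum, ← sum_subset (subset_univ (nb S v ∩ O))]
      · refine sum_congr rfl fun x hx => ?_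
        rw [mem_inter] at hx
        have h3 : S.Adj v x := by simpa [nb] using hx.1
        dsimp only
        by_cases h : b ∈ mis E φ' x
        · rw [if_pos h, if_pos (⟨h3, hx.2⟩ : S.Adj v x ∧ x ∈ O), if_pos ((hN b x).2 h), Nat.cast_one]
        · rw [if_neg h, if_neg (fun h' => h ((hN b x).1 h')), Nat.cast_zero]
      · intro x _ hx
        have h3 : ¬ (S.Adj v x ∧ x ∈ O) := by
          rintro ⟨h4, h5⟩
          exact hx (mem_inter.2 ⟨by simpa [nb] using h4, h5⟩)
        dsimp only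
        rw [if_neg h3]
        split_ifs <;> rfl
    rw [← h2]
    refine le_trans h1 ?_
    have h3 : ∑ x, (if S.Adj v x ∧ x ∈ O then (1 : ℝ) else 0) * ((mis E φ x).card : ℝ) ≤
        4 * (r + 2) := by
      calc ∑ x, (if S.Adj v x ∧ x ∈ O then (1 : ℝ) else 0) * ((mis E φ x).card : ℝ)
          ≤ ∑ x, (if S.Adj v x then (1 : ℝ) else 0) * 4 := by
            refine sum_le_sum fun x _ => ?_
            by_cases h4 : S.Adj v x ∧ x ∈ O
            · rw [if_pos h4, if_pos h4.1]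
              have : ((mis E φ x).card : ℝ) ≤ 4 := by exact_mod_cast hmis4 x h4.2
              linarith
            · rw [if_neg h4, zero_mul]
              split_ifs <;> norm_num
        _ = ((nb S v).card : ℝ) * 4 := by
            rw [← sum_mul]
            congr 1
            unfold nb
            rw [card_filter, Nat.cast_sum]
            refine sum_congr rfl fun x _ => ?_
            split_ifs <;> simp
        _ ≤ 4 * (r + 2) := by
            have : ((nb S v).card : ℝ) ≤ r + 2 := by exact_mod_cast hSd v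
            linarith
    have h4 : (∑ x, (if S.Adj v x ∧ x ∈ O then (1 : ℝ) else 0) * ((mis E φ x).card : ℝ)) / P ≤
        12 := by
      rw [div_le_iff₀ hP0']
      have : (r : ℝ) ≤ D := by exact_mod_cast hrD
      linarith
    rw [hspy, mul_div_assoc]
    rw [hc] at hyc
    have h5 : 4 * ((∑ x, (if S.Adj v x ∧ x ∈ O then (1 : ℝ) else 0) * ((mis E φ x).card : ℝ)) / P) +
        12 * (3 * y) ≤ 4515 * y := by linarith
    refine le_trans h5 ?_
    nlinarith
  · -- l1 of the nodes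
    refine (hn2 i).trans ?_
    nlinarith
  · refine (hn5 i').trans ?_
    nlinarith
  · -- loads
    refine (hn3 i s b).trans ?_
    have h2 : 0 ≤ (∑ v ∈ nsd nd i s, ((nb E v).card : ℝ)) / P :=
      div_nonneg (sum_nonneg fun v _ => Nat.cast_nonneg _) hP0'.le
    have h3 : (2 : ℝ) ≤ sp D a := by
      rw [hspy]
      nlinarith
    linarith
  · -- l1 of the tests
    rw [hW]
    simp only [← hwt]
    refine (hl1 j).trans ?_
    have h1 : Real.sqrt (KK E φ (k j)) ≤ 2 * Real.sqrt (e / D) := by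
      have h2 : Real.sqrt (4 * (e / D)) = 2 * Real.sqrt (e / D) := by
        rw [Real.sqrt_mul (by norm_num), show (4 : ℝ) = 2 ^ 2 by norm_num,
          Real.sqrt_sq (by norm_num)]
      rw [← h2]
      exact Real.sqrt_le_sqrt (hKK j)
    have h2 : Real.sqrt P ≤ 2 * Real.sqrt D := by
      have h3 : Real.sqrt (4 * D) = 2 * Real.sqrt D := by
        rw [Real.sqrt_mul (by norm_num), show (4 : ℝ) = 2 ^ 2 by norm_num,
          Real.sqrt_sq (by norm_num)]
      rw [← h3]
      exact Real.sqrt_le_sqrt (by linarith)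
    have hsD : y ^ 5 ≤ Real.sqrt D := by
      apply Real.le_sqrt_of_sq_le
      have h4 : (y ^ 5) ^ 2 = y ^ 10 := by ring
      rw [h4]
      exact hy10
    have h3 : (Nat.log 2 P : ℝ) * Real.sqrt (3 * y) ≤ Real.sqrt D := by
      have h4 : Real.sqrt (3 * y) ≤ y := by
        rw [Real.sqrt_le_left hy0.le]
        nlinarith
      calc (Nat.log 2 P : ℝ) * Real.sqrt (3 * y) ≤ y * y :=
            mul_le_mul hlog h4 (Real.sqrt_nonneg _) hy0.le
        _ ≤ y ^ 5 := by
            have : (1 : ℝ) ≤ y ^ 3 := one_le_pow₀ (by linarith)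
            nlinarith [mul_pos hy0 hy0]
        _ ≤ Real.sqrt D := hsD
    have h5 : Real.sqrt (e / D) * Real.sqrt D = Real.sqrt e := by
      rw [← Real.sqrt_mul (by positivity)]
      congr 1
      field_simp
    have h6 : 6 * c * Real.sqrt e ≤ ε := by
      have h7 : (6 * c * Real.sqrt e) ^ 2 ≤ ε ^ 2 := by
        rw [mul_pow, Real.sq_sqrt he0.le]
        linarith
      exact (abs_le_of_sq_le_sq' h7 hε.le).2
    have h8 : Real.sqrt (∑ v, k j v ^ 2 * ((mis E φ v).card : ℝ)) * (301 * Real.sqrt P +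
        120 * (Nat.log 2 P : ℝ) * Real.sqrt (3 * y)) ≤
        c * Real.sqrt (KK E φ (k j)) * (Real.sqrt P + (Nat.log 2 P : ℝ) * Real.sqrt (3 * y)) := by
      have h9 : 0 ≤ (Nat.log 2 P : ℝ) * Real.sqrt (3 * y) := mul_nonneg hlog0 (Real.sqrt_nonneg _)
      have h10 : Real.sqrt (∑ v, k j v ^ 2 * ((mis E φ v).card : ℝ)) =
          Real.sqrt (KK E φ (k j)) := rfl
      have h11 : c * Real.sqrt (KK E φ (k j)) * (Real.sqrt P +
          (Nat.log 2 P : ℝ) * Real.sqrt (3 * y)) = Real.sqrt (KK E φ (k j)) *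
          (301 * Real.sqrt P + 301 * ((Nat.log 2 P : ℝ) * Real.sqrt (3 * y))) := by
        rw [hc]
        ring
      rw [h10, h11]
      refine mul_le_mul_of_nonneg_left ?_ (Real.sqrt_nonneg _)
      nlinarith
    refine h8.trans ?_
    calc c * Real.sqrt (KK E φ (k j)) * (Real.sqrt P + (Nat.log 2 P : ℝ) * Real.sqrt (3 * y))
        ≤ c * (2 * Real.sqrt (e / D)) * (2 * Real.sqrt D + Real.sqrt D) := by
          refine mul_le_mul (mul_le_mul_of_nonneg_left h1 hc0.le) (add_le_add h2 h3)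
            (by positivity) (by positivity)
      _ = 6 * c * (Real.sqrt (e / D) * Real.sqrt D) := by ring
      _ ≤ ε := by rw [h5]; exact h6

end Pool.Agent.Work.MP_db9399_tkn
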