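import Pool.Agent.Work.MP_db9399_tkn_helper59.CH3
import Pool.Agent.Work.MP_db9399_ch_helper26.LevelS

/-!
# MP_db9399, all scales: equitable edge colourings with three windows (helper59)

Every proper edge colouring can be changed such that for all pairs of colours all sides of the nodes
and all signed nodes differ by at most `2`.
-/

set_option autoImplicit false

namespace Pool.Agent.Work.MP_db9399_tkn

open Finset Classical
open Pool.Agent.Work.MP_db9399_tk

universe u v w

section lift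

variable {V : Type u} [Fintype V] {C : Type v} [Fintype C]

/-- a set of colours in binary coordinates -/
theorem lift_cube {m : ℕ} (H : SimpleGraph V) (φ : V → V → C) (h : PEC H φ) (A : Finset C)
    (e : Cl m ≃ A) :
    ∃ (He : SimpleGraph V) (φe : V → V → Cl m), PEC He φe ∧
      (∀ (b : Cl m) (v : V), b ∈ mis He φe v ↔ ((e b : A) : C) ∈ mis H φ v) ∧
      ∀ ψ : V → V → Cl m, PEC He ψ → ∃ φ' : V → V → C, PEC H φ' ∧
        (∀ b, b ∉ A → ∀ v, b ∈ mis H φ' v ↔ b ∈ mis H φ v) ∧
        ∀ (b : Cl m) (v : V), b ∈ mis He ψ v ↔ ((e b : A) : C) ∈ mis H φ' v := by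
  set He := sbg H φ h A with hHe
  have hadj : ∀ v w, He.Adj v w ↔ H.Adj v w ∧ φ v w ∈ A := fun v w => Iff.rfl
  let φe : V → V → Cl m := fun v w =>
    if h : φ v w ∈ A then e.symm ⟨φ v w, h⟩ else fun _ => false
  have hφe : ∀ v w, He.Adj v w → ((e (φe v w) : A) : C) = φ v w := by
    intro v w hvw
    have h1 : φ v w ∈ A := ((hadj v w).1 hvw).2
    simp only [φe, dif_pos h1, Equiv.apply_symm_apply]
  have hpe : PEC He φe := by
    constructor
    · intro v w
      simp only [φe, h.sym v w]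
    · intro v w w' hw hw' he
      refine h.inj v w w' ((hadj v w).1 hw).1 ((hadj v w').1 hw').1 ?_
      rw [← hφe v w hw, ← hφe v w' hw', he]
  refine ⟨He, φe, hpe, ?_, ?_⟩
  · intro b v
    rw [mem_mis, mem_mis]
    constructor
    · intro h1 w hw he
      have h2 : He.Adj v w := (hadj v w).2 ⟨hw, by rw [he]; exact (e b).2⟩
      refine h1 w h2 (e.injective (Subtype.ext ?_))
      rw [hφe v w h2, he]
    · intro h1 w hw he
      refine h1 w ((hadj v w).1 hw).1 ?_
      rw [← hφe v w hw, he]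
  · intro ψ hψ
    let φ' : V → V → C := fun v w => if He.Adj v w then ((e (ψ v w) : A) : C) else φ v w
    have hp1 : ∀ v w, He.Adj v w → φ' v w = ((e (ψ v w) : A) : C) := fun v w hvw => if_pos hvw
    have hp2 : ∀ v w, ¬ He.Adj v w → φ' v w = φ v w := fun v w hvw => if_neg hvw
    refine ⟨φ', ?_, ?_, ?_⟩
    · constructor
      · intro v w
        by_cases hvw : He.Adj v w
        · rw [hp1 v w hvw, hp1 w v hvw.symm, hψ.sym v w]
        · rw [hp2 v w hvw, hp2 w v fun h' => hvw h'.symm, h.sym v w]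
      · intro v w w' hw hw' he
        by_cases hvw : He.Adj v w <;> by_cases hvw' : He.Adj v w'
        · rw [hp1 v w hvw, hp1 v w' hvw'] at he
          exact hψ.inj v w w' hvw hvw' (e.injective (Subtype.ext he))
        · rw [hp1 v w hvw, hp2 v w' hvw'] at he
          exact absurd ((hadj v w').2 ⟨hw', by rw [← he]; exact (e _).2⟩) hvw'
        · rw [hp2 v w hvw, hp1 v w' hvw'] at he
          exact absurd ((hadj v w).2 ⟨hw, by rw [he]; exact (e _).2⟩) hvw
        · rw [hp2 v w hvw, hp2 v w' hvw'] at he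
          exact h.inj v w w' hw hw' he
    · intro b hb v
      rw [mem_mis, mem_mis]
      refine forall₂_congr fun w hw => not_congr ?_
      by_cases hvw : He.Adj v w
      · rw [hp1 v w hvw]
        constructor
        · intro he
          exact absurd (by rw [← he]; exact (e _).2) hb
        · intro he
          exact absurd (by rw [← he]; exact ((hadj v w).1 hvw).2) hb
      · rw [hp2 v w hvw]
    · intro b v
      rw [mem_mis, mem_mis]
      constructor
      · intro h3 w hw he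
        by_cases hvw : He.Adj v w
        · rw [hp1 v w hvw] at he
          exact h3 w hvw (e.injective (Subtype.ext he))
        · rw [hp2 v w hvw] at he
          exact hvw ((hadj v w).2 ⟨hw, by rw [he]; exact (e b).2⟩)
      · intro h3 w hw he
        refine h3 w ((hadj v w).1 hw).1 ?_
        rw [hp1 v w hw, he]

theorem wt_congr {C' : Type w} [Fintype C'] (H H' : SimpleGraph V) (φ : V → V → C)
    (φ' : V → V → C') (k : V → ℝ) (b : C) (b' : C')
    (h : ∀ v, b ∈ mis H φ v ↔ b' ∈ mis H' φ' v) : wt H φ k b = wt H' φ' k b' := by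
  unfold wt
  refine sum_congr rfl fun v _ => ?_
  simp only [h v]

/-- `φ'` arises from `φ` by a change of the two colours `c`, `c'` -/
structure PairC (H : SimpleGraph V) (φ φ' : V → V → C) (c c' : C) : Prop where
  pec : PEC H φ'
  oth : ∀ b, b ≠ c → b ≠ c' → ∀ v, b ∈ mis H φ' v ↔ b ∈ mis H φ v
  sum : ∀ k : V → ℝ, wt H φ' k c + wt H φ' k c' = wt H φ k c + wt H φ k c'

/-- a pair of colours as a cube of dimension one -/
theorem pair_equiv (c c' : C) (hc : c ≠ c') :
    ∃ e : Cl 1 ≃ ({c, c'} : Finset C), ((e (fun _ => false) : ({c, c'} : Finset C)) : C) = c ∧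
      ((e (fun _ => true) : ({c, c'} : Finset C)) : C) = c' := by
  have h1 : ∀ b : Cl 1, (if b 0 = true then c' else c) ∈ ({c, c'} : Finset C) := by
    intro b
    split_ifs <;> simp
  refine ⟨Equiv.ofBijective (fun b => ⟨if b 0 = true then c' else c, h1 b⟩) ⟨?_, ?_⟩, ?_, ?_⟩
  · intro b b' hb
    have h2 : (if b 0 = true then c' else c) = if b' 0 = true then c' else c :=
      congrArg Subtype.val hb
    funext j
    have hj : j = 0 := Subsingleton.elim _ _
    rw [hj]
    cases h3 : b 0 <;> cases h4 : b' 0 <;> rw [h3, h4] at h2 <;> simp at h2 ⊢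
    · exact hc h2
    · exact hc h2.symm
  · rintro ⟨x, hx⟩
    rw [mem_insert, mem_singleton] at hx
    rcases hx with hx | hx
    · refine ⟨fun _ => false, Subtype.ext ?_⟩
      show (if false = true then c' else c) = x
      rw [hx]
      simp
    · refine ⟨fun _ => true, Subtype.ext ?_⟩
      show (if true = true then c' else c) = x
      rw [hx]
      simp
  · show (if false = true then c' else c) = c
    simp
  · show (if true = true then c' else c) = c'
    simp

/-- changes of a pair by coins -/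
theorem pair_lift (H : SimpleGraph V) (φ : V → V → C) (h : PEC H φ) (c c' : C) (hc : c ≠ c') :
    ∃ (He : SimpleGraph V) (φe : V → V → Cl 1) (hpe : PEC He φe),
      (∀ k : V → ℝ, wt H φ k c - wt H φ k c' =
        ∑ v, k v * dx 0 He φe (fun _ => false) v) ∧
      ∀ F : V → Fin 2, ∃ φ' : V → V → C, PairC H φ φ' c c' ∧
        ∀ k : V → ℝ, wt H φ' k c - wt H φ' k c' =
          ∑ v, sg (F (rp 0 He φe hpe (fun _ => false) v)) *
            (k v * dx 0 He φe (fun _ => false) v) := by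
  obtain ⟨e, he0, he1⟩ := pair_equiv c c' hc
  obtain ⟨He, φe, hpe, h1, h2⟩ := lift_cube H φ h {c, c'} e
  have hfl : fl (0 : Fin 1) (fun _ => false) = fun _ => true := by
    funext j
    have hj : j = 0 := Subsingleton.elim _ _
    rw [hj, fl_same]
    rfl
  have hw0 : ∀ k : V → ℝ, wt H φ k c = wt He φe k (fun _ => false) := by
    intro k
    refine (wt_congr He H φe φ k _ _ fun v => ?_).symm
    rw [h1, he0]
  have hw1 : ∀ k : V → ℝ, wt H φ k c' = wt He φe k (fun _ => true) := by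
    intro k
    refine (wt_congr He H φe φ k _ _ fun v => ?_).symm
    rw [h1, he1]
  refine ⟨He, φe, hpe, fun k => ?_, fun F => ?_⟩
  · rw [hw0, hw1, wt_eq, wt_eq, ← sum_sub_distrib]
    refine sum_congr rfl fun v _ => ?_
    unfold dx
    rw [hfl]
    ring
  · obtain ⟨φ', h3, h4, h5⟩ := h2 (nw 0 He φe hpe fun p => F p.2)
      (nw_pec 0 He φe hpe fun p => F p.2)
    have hw0' : ∀ k : V → ℝ, wt H φ' k c = wt He (nw 0 He φe hpe fun p => F p.2) k
        (fun _ => false) := by
      intro k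
      refine (wt_congr He H _ φ' k _ _ fun v => ?_).symm
      rw [h5, he0]
    have hw1' : ∀ k : V → ℝ, wt H φ' k c' = wt He (nw 0 He φe hpe fun p => F p.2) k
        (fun _ => true) := by
      intro k
      refine (wt_congr He H _ φ' k _ _ fun v => ?_).symm
      rw [h5, he1]
    refine ⟨φ', ⟨h3, fun b hb hb' v => h4 b ?_ v, fun k => ?_⟩, fun k => ?_⟩
    · rw [mem_insert, mem_singleton, not_or]
      exact ⟨hb, hb'⟩
    · rw [hw0, hw1, hw0', hw1', ← hfl, wt_eq, wt_eq, wt_eq, wt_eq, ← sum_add_distrib,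
        ← sum_add_distrib]
      refine sum_congr rfl fun v _ => ?_
      rw [← mul_add, ← mul_add, xm_add]
    · rw [hw0', hw1', ← hfl, nz_eq 0 He φe hpe _ k (fun _ => false) rfl, Pool.Agent.Work.MP_db9399_ch.nz_v]

end lift

section eq

variable {V : Type u} [Fintype V] {C : Type v} [Fintype C] {X : Type w}

/-- the range of the functionals does not grow -/
def MonoX (H : SimpleGraph V) (φ φ' : V → V → C) (k : X → V → ℝ) : Prop :=
  ∀ (x : X) (lo hi : ℝ), (∀ b, lo ≤ wt H φ (k x) b ∧ wt H φ (k x) b ≤ hi) →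
    ∀ b, lo ≤ wt H φ' (k x) b ∧ wt H φ' (k x) b ≤ hi

/-- two colours differ by at most `2` -/
def Spr (H : SimpleGraph V) (φ : V → V → C) (k : X → V → ℝ) : Prop :=
  ∀ (x : X) (b b' : C), |wt H φ (k x) b - wt H φ (k x) b'| ≤ 2

theorem spr_mono (H : SimpleGraph V) (φ φ' : V → V → C) (k : X → V → ℝ) (h : MonoX H φ φ' k)
    (h1 : Spr H φ k) : Spr H φ' k := by
  intro x b b'
  obtain ⟨c, _, hc⟩ := exists_min_image univ (fun c => wt H φ (k x) c) ⟨b, mem_univ b⟩
  have h2 : ∀ a, wt H φ (k x) c ≤ wt H φ (k x) a ∧ wt H φ (k x) a ≤ wt H φ (k x) c + 2 := by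
    intro a
    have h3 := h1 x a c
    rw [abs_le] at h3
    exact ⟨hc a (mem_univ a), by linarith [h3.2]⟩
  have h3 := h x _ _ h2 b
  have h4 := h x _ _ h2 b'
  rw [abs_le]
  constructor <;> linarith [h3.1, h3.2, h4.1, h4.2]

theorem mono_pair (H : SimpleGraph V) (φ φ' : V → V → C) (c c' : C) (h : PairC H φ φ' c c')
    (k : X → V → ℝ) (h1 : ∀ x, |wt H φ' (k x) c - wt H φ' (k x) c'| ≤
      |wt H φ (k x) c - wt H φ (k x) c'|) : MonoX H φ φ' k := by
  intro x lo hi hb b
  have h2 := h.sum (k x)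
  have h3 := h1 x
  obtain ⟨a1, a2⟩ := hb c
  obtain ⟨a3, a4⟩ := hb c'
  obtain ⟨a5, a6⟩ := abs_le.1 h3
  by_cases hbc : b = c
  · subst hbc
    rcases abs_cases (wt H φ (k x) b - wt H φ (k x) c') with ⟨a7, _⟩ | ⟨a7, _⟩ <;>
      rw [a7] at a5 a6 <;> constructor <;> linarith
  · by_cases hbc' : b = c'
    · subst hbc'
      rcases abs_cases (wt H φ (k x) c - wt H φ (k x) b) with ⟨a7, _⟩ | ⟨a7, _⟩ <;>
        rw [a7] at a5 a6 <;> constructor <;> linarith
    · rw [wt_congr H H φ' φ (k x) b b (h.oth b hbc hbc')]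
      exact hb b

/-- sums of squares decrease -/
theorem sq_pair (H : SimpleGraph V) (φ φ' : V → V → C) (c c' : C) (hc : c ≠ c')
    (h : PairC H φ φ' c c') (k : V → ℝ) :
    ∑ b, wt H φ k b ^ 2 - ∑ b, wt H φ' k b ^ 2 =
      ((wt H φ k c - wt H φ k c') ^ 2 - (wt H φ' k c - wt H φ' k c') ^ 2) / 2 := by
  have h1 : ∀ f : C → ℝ, ∑ b, f b = f c + f c' + ∑ b ∈ (univ.erase c).erase c', f b := by
    intro f
    rw [← add_sum_erase univ f (mem_univ c),
      ← add_sum_erase (univ.erase c) f (mem_erase.2 ⟨hc.symm, mem_univ c'⟩)]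
    ring
  rw [h1 (fun b => wt H φ k b ^ 2), h1 (fun b => wt H φ' k b ^ 2)]
  have h2 : ∑ b ∈ (univ.erase c).erase c', wt H φ' k b ^ 2 =
      ∑ b ∈ (univ.erase c).erase c', wt H φ k b ^ 2 := by
    refine sum_congr rfl fun b hb => ?_
    rw [mem_erase, mem_erase] at hb
    rw [wt_congr H H φ' φ k b b (h.oth b hb.2.1 hb.1)]
  rw [h2]
  have h3 := h.sum k
  have h4 : wt H φ' k c' = wt H φ k c + wt H φ k c' - wt H φ' k c := by linarith
  rw [h4]
  ring

theorem eqmin [Fintype X] (H : SimpleGraph V) (k : X → V → ℝ) (Good : (V → V → C) → Prop)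
    (step : ∀ φ, PEC H φ → Good φ → ∀ x c c', c ≠ c' → 2 < |wt H φ (k x) c - wt H φ (k x) c'| →
      ∃ φ', PairC H φ φ' c c' ∧ Good φ' ∧
        (∀ y, |wt H φ' (k y) c - wt H φ' (k y) c'| ≤ |wt H φ (k y) c - wt H φ (k y) c'|) ∧
        |wt H φ' (k x) c - wt H φ' (k x) c'| < |wt H φ (k x) c - wt H φ (k x) c'|)
    (φ : V → V → C) (h : PEC H φ) (hg : Good φ) :
    ∃ φ', PEC H φ' ∧ Good φ' ∧ Spr H φ' k := by
  obtain ⟨φ', hφ', hmin⟩ := exists_min_image
    (univ.filter fun φ' : V → V → C => PEC H φ' ∧ Good φ')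
    (fun φ' => ∑ x, ∑ b, wt H φ' (k x) b ^ 2) ⟨φ, mem_filter.2 ⟨mem_univ _, h, hg⟩⟩
  obtain ⟨_, h1, h2⟩ := mem_filter.1 hφ'
  refine ⟨φ', h1, h2, fun x c c' => ?_⟩
  by_contra hcon
  rw [not_le] at hcon
  have hc : c ≠ c' := by
    rintro rfl
    rw [sub_self, abs_zero] at hcon
    linarith
  obtain ⟨ψ, h3, h4, h5, h6⟩ := step φ' h1 h2 x c c' hc hcon
  have h7 := hmin ψ (mem_filter.2 ⟨mem_univ _, h3.pec, h4⟩)
  have h8 : ∑ y, ∑ b, wt H ψ (k y) b ^ 2 < ∑ y, ∑ b, wt H φ' (k y) b ^ 2 := by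
    refine sum_lt_sum (fun y _ => ?_) ⟨x, mem_univ x, ?_⟩
    · have h9 := sq_pair H φ' ψ c c' hc h3 (k y)
      have h10 := sq_le_sq.2 (h5 y)
      linarith
    · have h9 := sq_pair H φ' ψ c c' hc h3 (k x)
      have h10 := sq_lt_sq.2 h6
      linarith
  linarith

/-- **Equitable colourings, three windows.** -/
theorem eq3 {I : Type w} [Fintype I] (H : SimpleGraph V) (nd : V → Option (I × Bool))
    (φ : V → V → C) (h : PEC H φ) :
    ∃ φ' : V → V → C, PEC H φ' ∧
      Spr H φ' (fun (x : (I × Bool) ⊕ I) (v : V) => fx x (nd v)) := by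
  obtain ⟨φ1, h1, _, h2⟩ := eqmin H (fun (x : I × Bool) (v : V) => sd x (nd v)) (fun _ => True) (by
    intro φ h _ x c c' hc hx
    obtain ⟨He, φe, hpe, h3, h4⟩ := pair_lift H φ h c c' hc
    obtain ⟨κ, h5, h6⟩ := pair1 0 He φe hpe nd (fun _ => false)
    rw [h3] at hx
    obtain ⟨f, h7⟩ := h6 x hx
    obtain ⟨φ', h8, h9⟩ := h4 (fun p => f (κ p))
    refine ⟨φ', h8, trivial, fun y => ?_, ?_⟩
    · rw [h3, h9]
      exact h5 f y
    · rw [h3, h9]
      exact h7) φ h trivial
  obtain ⟨φ2, h3, h4, h5⟩ := eqmin H (fun (j : I) (v : V) => sn j (nd v))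
    (fun φ => Spr H φ (fun (x : I × Bool) (v : V) => sd x (nd v))) (by
    intro φ h hg x c c' hc hx
    obtain ⟨He, φe, hpe, h3, h4⟩ := pair_lift H φ h c c' hc
    obtain ⟨κ, _, h5, h6⟩ := pair3 0 He φe hpe nd (fun _ => false)
    rw [h3] at hx
    obtain ⟨f, h7⟩ := h6 x hx
    obtain ⟨φ', h8, h9⟩ := h4 (fun p => f (κ p))
    refine ⟨φ', h8, ?_, fun y => ?_, ?_⟩
    · refine spr_mono H φ φ' _ (mono_pair H φ φ' c c' h8 _ fun y => ?_) hg
      rw [h3, h9]
      exact h5 f (Sum.inl y)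
    · rw [h3, h9]
      exact h5 f (Sum.inr y)
    · rw [h3, h9]
      exact h7) φ1 h1 h2
  refine ⟨φ2, h3, ?_⟩
  rintro (x | j) b b'
  · exact h4 x b b'
  · exact h5 j b b'

end eq

end Pool.Agent.Work.MP_db9399_tkn
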