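import Pool.Agent.Work.MP_db9399_ch_helper26.Core

/-!
# MP_db9399, all scales: chained Kempe coins with three windows, part 1 (helper59)

Abstract chains. `nd o = some (i, s)`: the end `o` lies in the node `i` on the side `s`; `nd o = none`:
no node. The chains are built in two stages, such that for every choice of one coin per chain the total
of every side of every node and the signed total of every node do not grow in absolute value.
-/

set_option autoImplicit false

namespace Pool.Agent.Work.MP_db9399_tkn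

open Finset Classical
open Pool.Agent.Work.MP_db9399_tk (sg)
open Pool.Agent.Work.MP_db9399_ch (sg_abs)

universe u v w

section free

variable {O : Type u} {P : Type v} {N : Type w} [Fintype O]

/-- invariant of the construction -/
def InvS (pp : O → P) (nd : O → N) (t : O → ℝ) (κ : P → P) (Fr : Finset O) : Prop :=
  (∀ q, (Fr.filter (fun o => κ (pp o) = q)).card ≤ 2) ∧ (∀ o, t o = 0 → o ∈ Fr) ∧
    ∀ q n, ∑ o ∈ univ.filter (fun o => o ∉ Fr ∧ κ (pp o) = q ∧ nd o = n), t o = 0

theorem linkS (pp : O → P) (nd : O → N) (t : O → ℝ)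
    (κ : P → P) (Fr : Finset O) (hI : InvS pp nd t κ Fr) (o1 o2 : O)
    (h1 : o1 ∈ Fr) (h2 : o2 ∈ Fr) (ht1 : t o1 ≠ 0) (ht2 : t o2 ≠ 0) (hn : nd o1 = nd o2)
    (hc : t o1 + t o2 = 0) (hκ : κ (pp o1) = κ (pp o2)) :
    InvS pp nd t κ (Fr \ {o1, o2}) := by
  obtain ⟨a1, a2, a3⟩ := hI
  have hne : o1 ≠ o2 := by
    rintro rfl
    apply ht1
    linarith
  refine ⟨?_, ?_, ?_⟩
  · intro q
    refine le_trans (card_le_card ?_) (a1 q)
    intro o ho
    rw [mem_filter, mem_sdiff] at ho
    exact mem_filter.2 ⟨ho.1.1, ho.2⟩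
  · intro o ho
    rw [mem_sdiff, mem_insert, mem_singleton, not_or]
    refine ⟨a2 o ho, ?_, ?_⟩
    · rintro rfl
      exact ht1 ho
    · rintro rfl
      exact ht2 ho
  · intro q n
    have h3 : univ.filter (fun o => o ∉ Fr \ {o1, o2} ∧ κ (pp o) = q ∧ nd o = n) =
        (univ.filter (fun o => o ∉ Fr ∧ κ (pp o) = q ∧ nd o = n)) ∪
          (({o1, o2} : Finset O).filter (fun o => κ (pp o) = q ∧ nd o = n)) := by
      ext o
      rw [mem_union, mem_filter, mem_filter, mem_filter, mem_sdiff, mem_insert, mem_singleton]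
      constructor
      · rintro ⟨_, h4, h5, h6⟩
        by_cases h7 : o ∈ Fr
        · have h8 : o = o1 ∨ o = o2 := by
            by_contra h9
            exact h4 ⟨h7, h9⟩
          exact Or.inr ⟨h8, h5, h6⟩
        · exact Or.inl ⟨mem_univ _, h7, h5, h6⟩
      · rintro (⟨_, h4, h5, h6⟩ | ⟨h4, h5, h6⟩)
        · exact ⟨mem_univ _, fun h => h4 h.1, h5, h6⟩
        · exact ⟨mem_univ _, fun h => h.2 h4, h5, h6⟩
    have hd2 : Disjoint (univ.filter (fun o => o ∉ Fr ∧ κ (pp o) = q ∧ nd o = n))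
        (({o1, o2} : Finset O).filter (fun o => κ (pp o) = q ∧ nd o = n)) := by
      rw [disjoint_left]
      intro o ho ho'
      have h4 : o ∈ Fr := by
        have := (mem_filter.1 ho').1
        rw [mem_insert, mem_singleton] at this
        rcases this with rfl | rfl
        · exact h1
        · exact h2
      exact (mem_filter.1 ho).2.1 h4
    rw [h3, sum_union hd2, a3 q n, zero_add, sum_filter, sum_pair hne]
    by_cases h4 : κ (pp o1) = q ∧ nd o1 = n
    · rw [if_pos h4, if_pos ⟨hκ ▸ h4.1, hn ▸ h4.2⟩, hc]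
    · rw [if_neg h4, if_neg (fun h => h4 ⟨hκ.trans h.1, hn.trans h.2⟩), add_zero]

theorem mergeS (pp : O → P) (nd : O → N) (t : O → ℝ)
    (κ : P → P) (Fr : Finset O) (hI : InvS pp nd t κ Fr) (o1 o2 : O)
    (h1 : o1 ∈ Fr) (h2 : o2 ∈ Fr) (ht1 : t o1 ≠ 0) (ht2 : t o2 ≠ 0) (hn : nd o1 = nd o2)
    (hc : t o1 + t o2 = 0) (hκ : κ (pp o1) ≠ κ (pp o2)) :
    ∃ κ' : P → P, InvS pp nd t κ' (Fr \ {o1, o2}) := by
  obtain ⟨a1, a2, a3⟩ := hI
  have hne : o1 ≠ o2 := fun h => hκ (by rw [h])
  set q1 := κ (pp o1) with hq1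
  set q2 := κ (pp o2) with hq2
  refine ⟨fun p => if κ p = q2 then q1 else κ p, ?_, ?_, ?_⟩
  · intro q
    show ((Fr \ {o1, o2}).filter (fun o => (if κ (pp o) = q2 then q1 else κ (pp o)) = q)).card ≤ 2
    by_cases hq : q = q1
    · have h3 : (Fr \ {o1, o2}).filter (fun o => (if κ (pp o) = q2 then q1 else κ (pp o)) = q) ⊆
          ((Fr.filter (fun o => κ (pp o) = q1)).erase o1) ∪
            ((Fr.filter (fun o => κ (pp o) = q2)).erase o2) := by
        intro o ho
        rw [mem_filter, mem_sdiff, mem_insert, mem_singleton, not_or] at ho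
        rw [mem_union, mem_erase, mem_erase, mem_filter, mem_filter]
        by_cases h5 : κ (pp o) = q2
        · exact Or.inr ⟨ho.1.2.2, ho.1.1, h5⟩
        · rw [if_neg h5] at ho
          exact Or.inl ⟨ho.1.2.1, ho.1.1, ho.2.trans hq⟩
      refine (card_le_card h3).trans ((card_union_le _ _).trans ?_)
      have m1 : o1 ∈ Fr.filter (fun o => κ (pp o) = q1) := mem_filter.2 ⟨h1, rfl⟩
      have m2 : o2 ∈ Fr.filter (fun o => κ (pp o) = q2) := mem_filter.2 ⟨h2, rfl⟩
      rw [card_erase_of_mem m1, card_erase_of_mem m2]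
      have := a1 q1
      have := a1 q2
      omega
    · refine le_trans (card_le_card ?_) (a1 q)
      intro o ho
      rw [mem_filter, mem_sdiff] at ho
      rw [mem_filter]
      refine ⟨ho.1.1, ?_⟩
      by_cases h5 : κ (pp o) = q2
      · rw [if_pos h5] at ho
        exact absurd ho.2.symm hq
      · rw [if_neg h5] at ho
        exact ho.2
  · intro o ho
    rw [mem_sdiff, mem_insert, mem_singleton, not_or]
    refine ⟨a2 o ho, ?_, ?_⟩
    · rintro rfl
      exact ht1 ho
    · rintro rfl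
      exact ht2 ho
  · intro q n
    show ∑ o ∈ univ.filter (fun o => o ∉ Fr \ {o1, o2} ∧
      (if κ (pp o) = q2 then q1 else κ (pp o)) = q ∧ nd o = n), t o = 0
    by_cases hq : q = q1
    · have h3 : univ.filter (fun o => o ∉ Fr \ {o1, o2} ∧
          (if κ (pp o) = q2 then q1 else κ (pp o)) = q ∧ nd o = n) =
          ((univ.filter (fun o => o ∉ Fr ∧ κ (pp o) = q1 ∧ nd o = n)) ∪
            (univ.filter (fun o => o ∉ Fr ∧ κ (pp o) = q2 ∧ nd o = n))) ∪
              (({o1, o2} : Finset O).filter (fun o => nd o = n)) := by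
        ext o
        rw [mem_union, mem_union, mem_filter, mem_filter, mem_filter, mem_filter, mem_sdiff, hq,
          mem_insert, mem_singleton]
        constructor
        · rintro ⟨_, h4, h5, h6⟩
          by_cases h7 : o ∈ Fr
          · have h8 : o = o1 ∨ o = o2 := by
              by_contra h9
              exact h4 ⟨h7, h9⟩
            exact Or.inr ⟨h8, h6⟩
          · left
            by_cases h8 : κ (pp o) = q2
            · exact Or.inr ⟨mem_univ _, h7, h8, h6⟩
            · rw [if_neg h8] at h5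
              exact Or.inl ⟨mem_univ _, h7, h5, h6⟩
        · rintro ((⟨_, h4, h5, h6⟩ | ⟨_, h4, h5, h6⟩) | ⟨h4, h6⟩)
          · refine ⟨mem_univ _, fun h => h4 h.1, ?_, h6⟩
            rw [if_neg (by rw [h5]; exact hκ), h5]
          · refine ⟨mem_univ _, fun h => h4 h.1, ?_, h6⟩
            rw [if_pos h5]
          · refine ⟨mem_univ _, fun h => h.2 h4, ?_, h6⟩
            rcases h4 with rfl | rfl
            · rw [if_neg hκ]
            · rw [if_pos rfl]
      have hd1 : Disjoint (univ.filter (fun o => o ∉ Fr ∧ κ (pp o) = q1 ∧ nd o = n))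
          (univ.filter (fun o => o ∉ Fr ∧ κ (pp o) = q2 ∧ nd o = n)) := by
        rw [disjoint_left]
        intro o ho ho'
        exact hκ ((mem_filter.1 ho).2.2.1.symm.trans (mem_filter.1 ho').2.2.1)
      have hd2 : Disjoint ((univ.filter (fun o => o ∉ Fr ∧ κ (pp o) = q1 ∧ nd o = n)) ∪
            (univ.filter (fun o => o ∉ Fr ∧ κ (pp o) = q2 ∧ nd o = n)))
              (({o1, o2} : Finset O).filter (fun o => nd o = n)) := by
        rw [disjoint_left]
        intro o ho ho'
        have h4 : o ∈ Fr := by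
          have := (mem_filter.1 ho').1
          rw [mem_insert, mem_singleton] at this
          rcases this with rfl | rfl
          · exact h1
          · exact h2
        rw [mem_union, mem_filter, mem_filter] at ho
        rcases ho with ho | ho
        · exact ho.2.1 h4
        · exact ho.2.1 h4
      rw [h3, sum_union hd2, sum_union hd1, a3 q1 n, a3 q2 n, sum_filter, sum_pair hne]
      by_cases h4 : nd o1 = n
      · rw [if_pos h4, if_pos (hn ▸ h4), hc, add_zero, add_zero]
      · rw [if_neg h4, if_neg (fun h => h4 (hn.trans h)), add_zero, add_zero]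
    · by_cases hqq : q = q2
      · rw [filter_false_of_mem, sum_empty]
        rintro o _ ⟨_, h4, _⟩
        by_cases h5 : κ (pp o) = q2
        · rw [if_pos h5] at h4
          exact hq h4.symm
        · rw [if_neg h5] at h4
          exact h5 (h4.trans hqq)
      · rw [← a3 q n]
        refine sum_congr ?_ fun _ _ => rfl
        ext o
        rw [mem_filter, mem_filter, mem_sdiff, mem_insert, mem_singleton]
        constructor
        · rintro ⟨_, h4, h5, h6⟩
          by_cases h7 : κ (pp o) = q2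
          · rw [if_pos h7] at h5
            exact absurd h5.symm hq
          · rw [if_neg h7] at h5
            refine ⟨mem_univ _, fun h8 => ?_, h5, h6⟩
            have h9 : o = o1 ∨ o = o2 := by
              by_contra h9
              exact h4 ⟨h8, h9⟩
            rcases h9 with rfl | rfl
            · exact hq h5.symm
            · exact hqq h5.symm
        · rintro ⟨_, h4, h5, h6⟩
          refine ⟨mem_univ _, fun h => h4 h.1, ?_, h6⟩
          rw [if_neg (by rw [h5]; exact hqq), h5]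

/-- free ends of the same node have the same value -/
def FrOne (nd : O → N) (t : O → ℝ) (Fr : Finset O) : Prop :=
  ∀ o1 ∈ Fr, ∀ o2 ∈ Fr, t o1 ≠ 0 → t o2 ≠ 0 → nd o1 = nd o2 → t o1 = t o2

/-- chains and free ends -/
theorem chain_free (pp : O → P) (nd : O → N) (t : O → ℝ)
    (ht : ∀ o, t o = 0 ∨ t o = 1 ∨ t o = -1)
    (h2 : ∀ p, ∀ E : Finset O, (∀ o ∈ E, pp o = p) → E.card ≤ 2) :
    ∃ (κ : P → P) (Fr : Finset O), InvS pp nd t κ Fr ∧ FrOne nd t Fr := by
  have hex : ∃ k, ∃ (κ : P → P) (Fr : Finset O), InvS pp nd t κ Fr ∧ Fr.card = k := by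
    refine ⟨_, id, univ, ⟨fun p => h2 p _ fun o ho => (mem_filter.1 ho).2,
      fun o _ => mem_univ o, ?_⟩, rfl⟩
    intro q n
    rw [filter_false_of_mem, sum_empty]
    rintro o _ ⟨h, _⟩
    exact h (mem_univ o)
  obtain ⟨κ, Fr, hI, hk⟩ := Nat.find_spec hex
  have hmin : ∀ (κ' : P → P) (Fr' : Finset O), InvS pp nd t κ' Fr' →
      Fr.card ≤ Fr'.card := by
    intro κ' Fr' h'
    rw [hk]
    exact Nat.find_min' hex ⟨κ', Fr', h', rfl⟩
  refine ⟨κ, Fr, hI, ?_⟩
  intro o1 h1 o2 h2' ht1 ht2 hn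
  by_contra hne
  have hc : t o1 + t o2 = 0 := by
    rcases ht o1 with h3 | h3 | h3 <;> rcases ht o2 with h4 | h4 | h4 <;>
      first
      | exact absurd h3 ht1
      | exact absurd h4 ht2
      | exact absurd (h3.trans h4.symm) hne
      | (rw [h3, h4]; norm_num)
  have h4 : (Fr \ {o1, o2}).card < Fr.card := by
    refine card_lt_card ⟨sdiff_subset, fun h => ?_⟩
    have := h h1
    rw [mem_sdiff] at this
    exact this.2 (mem_insert_self _ _)
  by_cases hκ : κ (pp o1) = κ (pp o2)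
  · have h5 := hmin κ _ (linkS pp nd t κ Fr hI o1 o2 h1 h2' ht1 ht2 hn hc hκ)
    omega
  · obtain ⟨κ', h'⟩ := mergeS pp nd t κ Fr hI o1 o2 h1 h2' ht1 ht2 hn hc hκ
    have h5 := hmin κ' _ h'
    omega

/-- the total of a node -/
noncomputable def FS (A : Finset O) (nd : O → N) (n : N) (g : O → ℝ) : ℝ :=
  ∑ o ∈ A.filter (fun o => nd o = n), g o

omit [Fintype O] in
theorem FS_eq (A : Finset O) (nd : O → N) (n : N) (g h : O → ℝ)
    (h1 : ∀ o ∈ A, nd o = n → h o = g o) (h2 : ∀ o ∈ A, nd o ≠ n → h o = 0) :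
    ∑ o ∈ A, h o = FS A nd n g := by
  unfold FS
  rw [sum_filter]
  refine sum_congr rfl fun o ho => ?_
  by_cases h : nd o = n
  · rw [if_pos h, h1 o ho h]
  · rw [if_neg h, h2 o ho h]

/-- only the free ends count -/
theorem free_sum (pp : O → P) (nd : O → N) (t : O → ℝ) (κ : P → P) (Fr : Finset O)
    (hI : InvS pp nd t κ Fr) (f : P → Fin 2) (n : N) :
    FS univ nd n (fun o => sg (f (κ (pp o))) * t o) =
      FS Fr nd n (fun o => sg (f (κ (pp o))) * t o) := by
  unfold FS
  obtain ⟨a1, a2, a3⟩ := hI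
  have h3 : ∑ o ∈ univ.filter (fun o => o ∉ Fr ∧ nd o = n), sg (f (κ (pp o))) * t o = 0 := by
    set A := univ.filter (fun o => o ∉ Fr ∧ nd o = n) with hA
    rw [← sum_fiberwise_of_maps_to (s := A) (t := A.image fun o => κ (pp o))
      (g := fun o => κ (pp o)) fun o ho => mem_image_of_mem _ ho]
    refine sum_eq_zero fun q _ => ?_
    have h4 : ∀ o ∈ A.filter (fun o => κ (pp o) = q), sg (f (κ (pp o))) * t o =
        sg (f q) * t o := by
      intro o ho
      rw [(mem_filter.1 ho).2]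
    rw [sum_congr rfl h4, ← mul_sum]
    have h5 : A.filter (fun o => κ (pp o) = q) =
        univ.filter (fun o => o ∉ Fr ∧ κ (pp o) = q ∧ nd o = n) := by
      ext o
      rw [mem_filter, hA, mem_filter, mem_filter]
      tauto
    rw [h5, a3 q n, mul_zero]
  have h4 : univ.filter (fun o => nd o = n) =
      (univ.filter (fun o => o ∉ Fr ∧ nd o = n)) ∪ (Fr.filter (fun o => nd o = n)) := by
    ext o
    rw [mem_union, mem_filter, mem_filter, mem_filter]
    by_cases h : o ∈ Fr
    · constructor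
      · rintro ⟨_, h5⟩
        exact Or.inr ⟨h, h5⟩
      · rintro (⟨_, _, h5⟩ | ⟨_, h5⟩)
        · exact ⟨mem_univ _, h5⟩
        · exact ⟨mem_univ _, h5⟩
    · constructor
      · rintro ⟨_, h5⟩
        exact Or.inl ⟨mem_univ _, h, h5⟩
      · rintro (⟨_, _, h5⟩ | ⟨_, h5⟩)
        · exact ⟨mem_univ _, h5⟩
        · exact ⟨mem_univ _, h5⟩
  have h6 : Disjoint (univ.filter (fun o => o ∉ Fr ∧ nd o = n))
      (Fr.filter (fun o => nd o = n)) := by
    rw [disjoint_left]
    intro o ho ho'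
    exact (mem_filter.1 ho).2.1 (mem_filter.1 ho').1
  rw [h4, sum_union h6, h3, zero_add]

/-- the free ends of a node which carry a value -/
noncomputable def fb (nd : O → N) (t : O → ℝ) (Fr : Finset O) (n : N) : Finset O :=
  (Fr.filter (fun o => nd o = n)).filter (fun o => t o ≠ 0)

omit [Fintype O] in
theorem fb_sum (nd : O → N) (t : O → ℝ) (Fr : Finset O) (n : N) (g : O → ℝ) :
    FS Fr nd n (fun o => g o * t o) = ∑ o ∈ fb nd t Fr n, g o * t o := by
  symm
  refine sum_subset (filter_subset _ _) ?_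
  intro o ho ho'
  have : t o = 0 := by
    by_contra h
    exact ho' (mem_filter.2 ⟨ho, h⟩)
  rw [this, mul_zero]

omit [Fintype O] in
/-- there is a sign such that all free ends of the node have this value -/
theorem fb_sign (nd : O → N) (t : O → ℝ) (ht : ∀ o, t o = 0 ∨ t o = 1 ∨ t o = -1) (Fr : Finset O)
    (hF : FrOne nd t Fr) (n : N) : ∃ σ : ℝ, |σ| = 1 ∧ ∀ o ∈ fb nd t Fr n, t o = σ := by
  rcases (fb nd t Fr n).eq_empty_or_nonempty with he | ⟨o0, ho0⟩
  · refine ⟨1, by norm_num, fun o ho => ?_⟩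
    rw [he] at ho
    exact absurd ho (notMem_empty _)
  · refine ⟨t o0, ?_, fun o ho => ?_⟩
    · rcases ht o0 with h | h | h
      · exact absurd h (mem_filter.1 ho0).2
      · rw [h]; norm_num
      · rw [h]; norm_num
    · unfold fb at ho ho0
      rw [mem_filter, mem_filter] at ho ho0
      exact hF o ho.1.1 o0 ho0.1.1 ho.2 ho0.2 (ho.1.2.trans ho0.1.2.symm)

omit [Fintype O] in
theorem free_card (nd : O → N) (t : O → ℝ) (ht : ∀ o, t o = 0 ∨ t o = 1 ∨ t o = -1)
    (Fr : Finset O) (hF : FrOne nd t Fr) (n : N) :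
    |FS Fr nd n t| = (fb nd t Fr n).card := by
  obtain ⟨σ, h1, h2⟩ := fb_sign nd t ht Fr hF n
  have h3 := fb_sum nd t Fr n (fun _ => 1)
  simp only [one_mul] at h3
  rw [h3, sum_congr rfl h2, sum_const, nsmul_eq_mul, abs_mul, Nat.abs_cast, h1, mul_one]

omit [Fintype O] in
/-- no coin increases the total of the free ends -/
theorem free_le (nd : O → N) (t : O → ℝ) (ht : ∀ o, t o = 0 ∨ t o = 1 ∨ t o = -1)
    (Fr : Finset O) (hF : FrOne nd t Fr) (n : N) (g : O → ℝ) (hg : ∀ o, |g o| ≤ 1) :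
    |FS Fr nd n (fun o => g o * t o)| ≤ |FS Fr nd n t| := by
  rw [free_card nd t ht Fr hF, fb_sum]
  obtain ⟨σ, h1, h2⟩ := fb_sign nd t ht Fr hF n
  refine (abs_sum_le_sum_abs _ _).trans ?_
  refine (sum_le_sum (g := fun _ => (1 : ℝ)) fun o ho => ?_).trans ?_
  · rw [abs_mul, h2 o ho, h1, mul_one]
    exact hg o
  · rw [sum_const, nsmul_eq_mul, mul_one]

omit [Fintype O] in
/-- a coin which decreases the total of the free ends -/
theorem free_lt (pp : O → P) (nd : O → N) (t : O → ℝ) (ht : ∀ o, t o = 0 ∨ t o = 1 ∨ t o = -1)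
    (κ : P → P) (Fr : Finset O) (h2 : ∀ q, (Fr.filter (fun o => κ (pp o) = q)).card ≤ 2)
    (hF : FrOne nd t Fr) (n : N) (h3 : 2 < |FS Fr nd n t|) :
    ∃ f : P → Fin 2, |FS Fr nd n (fun o => sg (f (κ (pp o))) * t o)| < |FS Fr nd n t| := by
  rw [free_card nd t ht Fr hF] at h3
  have hc : 3 ≤ (fb nd t Fr n).card := by
    have : (2 : ℕ) < (fb nd t Fr n).card := by exact_mod_cast h3
    omega
  obtain ⟨o0, ho0⟩ : (fb nd t Fr n).Nonempty := card_pos.1 (by omega)
  obtain ⟨σ, h1, h4⟩ := fb_sign nd t ht Fr hF n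
  refine ⟨fun q => if q = κ (pp o0) then 1 else 0, ?_⟩
  rw [free_card nd t ht Fr hF, fb_sum]
  set B := fb nd t Fr n with hB
  set B1 := B.filter (fun o => κ (pp o) = κ (pp o0)) with hB1
  have h5 : ∑ o ∈ B, sg (if κ (pp o) = κ (pp o0) then 1 else 0) * t o =
      ((B.card : ℝ) - 2 * B1.card) * σ := by
    have h6 : ∀ o ∈ B, sg (if κ (pp o) = κ (pp o0) then 1 else 0) * t o =
        σ - 2 * (if κ (pp o) = κ (pp o0) then σ else 0) := by
      intro o ho
      rw [h4 o ho]
      unfold sg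
      split_ifs <;> simp_all <;> ring
    rw [sum_congr rfl h6, sum_sub_distrib, ← mul_sum, ← sum_filter, sum_const, sum_const,
      nsmul_eq_mul, nsmul_eq_mul]
    ring
  rw [h5, abs_mul, h1, mul_one, abs_lt]
  have h7 : B1.card ≤ 2 := by
    refine le_trans (card_le_card ?_) (h2 (κ (pp o0)))
    intro o ho
    have h8 := mem_filter.1 ho
    exact mem_filter.2 ⟨(mem_filter.1 (mem_filter.1 h8.1).1).1, h8.2⟩
  have h8 : 1 ≤ B1.card := card_pos.2 ⟨o0, mem_filter.2 ⟨ho0, rfl⟩⟩
  have h9 : (B1.card : ℝ) ≤ 2 := by exact_mod_cast h7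
  have h10 : (1 : ℝ) ≤ B1.card := by exact_mod_cast h8
  have h11 : (3 : ℝ) ≤ B.card := by exact_mod_cast hc
  constructor <;> linarith

end free

section three

variable {I : Type u} {O P : Type v} [Fintype O]

/-- side of a node -/
noncomputable def sd (x : I × Bool) (y : Option (I × Bool)) : ℝ := if y = some x then 1 else 0

/-- signed node -/
noncomputable def sn (i : I) (y : Option (I × Bool)) : ℝ := sd (i, false) y - sd (i, true) y

/-- sign of a vertex -/
noncomputable def s3 (y : Option (I × Bool)) : ℝ :=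
  match y with
  | none => 0
  | some (_, false) => 1
  | some (_, true) => -1

/-- the three functionals of a node -/
noncomputable def fx (x : (I × Bool) ⊕ I) (y : Option (I × Bool)) : ℝ :=
  match x with
  | Sum.inl x => sd x y
  | Sum.inr i => sn i y

theorem sn_eq (i : I) (y : Option (I × Bool)) :
    sn i y = if Option.map Prod.fst y = some i then s3 y else 0 := by
  unfold sn sd s3
  rcases y with _ | ⟨j, s⟩
  · simp
  · by_cases hj : j = i
    · subst hj
      cases s <;> simp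
    · cases s <;> simp [hj]

theorem s3_cases (y : Option (I × Bool)) : s3 y = 0 ∨ s3 y = 1 ∨ s3 y = -1 := by
  unfold s3
  rcases y with _ | ⟨j, s⟩
  · exact Or.inl rfl
  · cases s
    · exact Or.inr (Or.inl rfl)
    · exact Or.inr (Or.inr rfl)

theorem s3_zero (y : Option (I × Bool)) : s3 y = 0 ↔ y = none := by
  unfold s3
  rcases y with _ | ⟨j, s⟩
  · simp
  · cases s <;> simp

/-- value of an end -/
noncomputable def t1 (nd : O → Option (I × Bool)) (d : O → ℝ) (o : O) : ℝ :=
  if nd o = none then 0 else d o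

theorem sd_sum (nd : O → Option (I × Bool)) (x : I × Bool) (g d : O → ℝ) :
    ∑ o, g o * (sd x (nd o) * d o) = FS univ nd (some x) (fun o => g o * t1 nd d o) := by
  refine FS_eq _ _ _ _ _ (fun o _ h => ?_) fun o _ h => ?_
  · unfold sd t1
    rw [if_pos h, if_neg (by rw [h]; exact Option.some_ne_none x), one_mul]
  · unfold sd
    rw [if_neg h, zero_mul, mul_zero]

omit [Fintype O] in
theorem t1_cases (nd : O → Option (I × Bool)) (d : O → ℝ) (hd : ∀ o, d o = 0 ∨ d o = 1 ∨ d o = -1)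
    (o : O) : t1 nd d o = 0 ∨ t1 nd d o = 1 ∨ t1 nd d o = -1 := by
  unfold t1
  split_ifs
  · exact Or.inl rfl
  · exact hd o

/-- **One stage**: only the sides. -/
theorem chain1 (pp : O → P) (nd : O → Option (I × Bool)) (d : O → ℝ)
    (hd : ∀ o, d o = 0 ∨ d o = 1 ∨ d o = -1)
    (h2 : ∀ p, ∀ E : Finset O, (∀ o ∈ E, pp o = p) → E.card ≤ 2) :
    ∃ κ : P → P,
      (∀ (f : P → Fin 2) (x : I × Bool), |∑ o, sg (f (κ (pp o))) * (sd x (nd o) * d o)| ≤
        |∑ o, sd x (nd o) * d o|) ∧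
      ∀ x : I × Bool, 2 < |∑ o, sd x (nd o) * d o| → ∃ f : P → Fin 2,
        |∑ o, sg (f (κ (pp o))) * (sd x (nd o) * d o)| < |∑ o, sd x (nd o) * d o| := by
  have ht := t1_cases nd d hd
  obtain ⟨κ, Fr, hI, hF⟩ := chain_free pp nd (t1 nd d) ht h2
  have k0 : sg (0 : Fin 2) = 1 := by simp [sg]
  have h3 : ∀ (f : P → Fin 2) (x : I × Bool), ∑ o, sg (f (κ (pp o))) * (sd x (nd o) * d o) =
      FS Fr nd (some x) (fun o => sg (f (κ (pp o))) * t1 nd d o) := by
    intro f x
    rw [sd_sum nd x (fun o => sg (f (κ (pp o)))) d]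
    exact free_sum pp nd (t1 nd d) κ Fr hI f (some x)
  have h4 : ∀ x : I × Bool, ∑ o, sd x (nd o) * d o = FS Fr nd (some x) (t1 nd d) := by
    intro x
    have h5 := h3 (fun _ => 0) x
    simp only [k0, one_mul] at h5
    exact h5
  refine ⟨κ, fun f x => ?_, fun x hx => ?_⟩
  · rw [h3, h4]
    exact free_le nd (t1 nd d) ht Fr hF _ _ fun o => (sg_abs _).le
  · rw [h4] at hx
    obtain ⟨f, hf⟩ := free_lt pp nd (t1 nd d) ht κ Fr hI.1 hF _ hx
    exact ⟨f, by rw [h3, h4]; exact hf⟩

/-- **Two stages**: the sides and the signed nodes. -/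
theorem chain3 (pp : O → P) (nd : O → Option (I × Bool)) (d : O → ℝ)
    (hd : ∀ o, d o = 0 ∨ d o = 1 ∨ d o = -1)
    (h2 : ∀ p, ∀ E : Finset O, (∀ o ∈ E, pp o = p) → E.card ≤ 2) :
    ∃ κ : P → P,
      (∀ q, ∀ E : Finset O, (∀ o ∈ E, κ (pp o) = q ∧ nd o = none) → E.card ≤ 2) ∧
      (∀ (f : P → Fin 2) (x : (I × Bool) ⊕ I), |∑ o, sg (f (κ (pp o))) * (fx x (nd o) * d o)| ≤
        |∑ o, fx x (nd o) * d o|) ∧
      ∀ i : I, 2 < |∑ o, sn i (nd o) * d o| → ∃ f : P → Fin 2,
        |∑ o, sg (f (κ (pp o))) * (sn i (nd o) * d o)| < |∑ o, sn i (nd o) * d o| := by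
  have ht := t1_cases nd d hd
  obtain ⟨κ1, Fr, hI, hF⟩ := chain_free pp nd (t1 nd d) ht h2
  -- stage two
  set nd2 : {o // o ∈ Fr} → Option I := fun o => Option.map Prod.fst (nd o.1) with hnd2
  set t2 : {o // o ∈ Fr} → ℝ := fun o => s3 (nd o.1) * d o.1 with ht2d
  have ht2 : ∀ o, t2 o = 0 ∨ t2 o = 1 ∨ t2 o = -1 := by
    intro o
    rw [ht2d]
    simp only
    rcases s3_cases (nd o.1) with h3 | h3 | h3 <;> rcases hd o.1 with h4 | h4 | h4 <;>
      rw [h3, h4] <;> norm_num
  obtain ⟨κ2, Fr2, hI2, hF2⟩ := chain_free (fun o : {o // o ∈ Fr} => κ1 (pp o.1)) nd2 t2 ht2 (by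
    intro p E hE
    rw [← card_map (f := Function.Embedding.subtype (fun o => o ∈ Fr))]
    refine le_trans (card_le_card ?_) (hI.1 p)
    intro o ho
    obtain ⟨o', ho', rfl⟩ := mem_map.1 ho
    exact mem_filter.2 ⟨o'.2, hE o' ho'⟩)
  have k0 : sg (0 : Fin 2) = 1 := by simp [sg]
  -- sides
  have h3 : ∀ (f : P → Fin 2) (x : I × Bool),
      ∑ o, sg (f (κ2 (κ1 (pp o)))) * (sd x (nd o) * d o) =
      FS Fr nd (some x) (fun o => sg (f (κ2 (κ1 (pp o)))) * t1 nd d o) := by
    intro f x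
    rw [sd_sum nd x (fun o => sg (f (κ2 (κ1 (pp o))))) d]
    exact free_sum pp nd (t1 nd d) κ1 Fr hI (fun p => f (κ2 p)) (some x)
  have h4 : ∀ x : I × Bool, ∑ o, sd x (nd o) * d o = FS Fr nd (some x) (t1 nd d) := by
    intro x
    have h5 := h3 (fun _ => 0) x
    simp only [k0, one_mul] at h5
    exact h5
  -- signed nodes
  have h5 : ∀ (f : P → Fin 2) (i : I),
      ∑ o, sg (f (κ2 (κ1 (pp o)))) * (sn i (nd o) * d o) =
      FS Fr2 nd2 (some i) (fun o => sg (f (κ2 (κ1 (pp o.1)))) * t2 o) := by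
    intro f i
    rw [← free_sum (fun o : {o // o ∈ Fr} => κ1 (pp o.1)) nd2 t2 κ2 Fr2 hI2 f (some i)]
    have h6 : ∀ o, sg (f (κ2 (κ1 (pp o)))) * (sn i (nd o) * d o) =
        sg (f (κ2 (κ1 (pp o)))) * (sd (i, false) (nd o) * d o) -
        sg (f (κ2 (κ1 (pp o)))) * (sd (i, true) (nd o) * d o) := by
      intro o
      unfold sn
      ring
    rw [sum_congr rfl fun o _ => h6 o, sum_sub_distrib, h3, h3]
    unfold FS
    rw [sum_filter, sum_filter, ← sum_sub_distrib, sum_filter, ← sum_coe_sort Fr]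
    refine sum_congr rfl fun o _ => ?_
    rw [hnd2, ht2d]
    unfold t1
    simp only
    rcases h7 : nd o.1 with _ | ⟨j, s⟩
    · simp
    · by_cases hj : j = i
      · subst hj
        cases s <;> simp [s3]
      · cases s <;> simp [hj]
  have h6 : ∀ i : I, ∑ o, sn i (nd o) * d o = FS Fr2 nd2 (some i) t2 := by
    intro i
    have h7 := h5 (fun _ => 0) i
    simp only [k0, one_mul] at h7
    exact h7
  refine ⟨fun p => κ2 (κ1 p), ?_, ?_, ?_⟩
  · intro q E hE
    have h7 : ∀ o ∈ E, o ∈ Fr := by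
      intro o ho
      refine hI.2.1 o ?_
      unfold t1
      rw [if_pos (hE o ho).2]
    have h8 : E.card = (E.subtype (fun o => o ∈ Fr)).card := by
      rw [card_subtype, filter_true_of_mem h7]
    rw [h8]
    refine le_trans (card_le_card ?_) (hI2.1 q)
    intro o ho
    have h9 := hE o.1 (mem_subtype.1 ho)
    refine mem_filter.2 ⟨hI2.2.1 o ?_, h9.1⟩
    rw [ht2d]
    simp only [(s3_zero _).2 h9.2, zero_mul]
  · intro f x
    rcases x with x | i
    · show |∑ o, sg (f (κ2 (κ1 (pp o)))) * (sd x (nd o) * d o)| ≤ |∑ o, sd x (nd o) * d o|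
      rw [h3, h4]
      exact free_le nd (t1 nd d) ht Fr hF _ _ fun o => (sg_abs _).le
    · show |∑ o, sg (f (κ2 (κ1 (pp o)))) * (sn i (nd o) * d o)| ≤ |∑ o, sn i (nd o) * d o|
      rw [h5, h6]
      exact free_le nd2 t2 ht2 Fr2 hF2 _ _ fun o => (sg_abs _).le
  · intro i hi
    rw [h6] at hi
    obtain ⟨f, hf⟩ := free_lt (fun o : {o // o ∈ Fr} => κ1 (pp o.1)) nd2 t2 ht2 κ2 Fr2 hI2.1 hF2 _ hi
    exact ⟨f, by rw [h5, h6]; exact hf⟩

end three

end Pool.Agent.Work.MP_db9399_tkn
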