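import Pool.Agent.Work.MP_db9399_tkn_helper59.Core3

/-!
# MP_db9399, all scales: chained Kempe coins with windows on sides, nodes and pieces (helper59)

Three stages of links: inside a side, inside a node (both sides), inside a piece (a set of nodes).
-/

set_option autoImplicit false

namespace Pool.Agent.Work.MP_db9399_tkn

open Finset Classical
open Pool.Agent.Work.MP_db9399_tk (sg)
open Pool.Agent.Work.MP_db9399_ch (sg_abs)

universe u v w

section stage

variable {O : Type u} {P : Type v} {N : Type w} [Fintype O]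

/-- **One more stage of links.** -/
theorem stage (pp : O → P) (κ : P → P) (Fr : Finset O)
    (h : ∀ q, (Fr.filter (fun o => κ (pp o) = q)).card ≤ 2) (nd : O → N) (t : O → ℝ)
    (ht : ∀ o, t o = 0 ∨ t o = 1 ∨ t o = -1) :
    ∃ (κ' : P → P) (Fr' : Finset O), Fr' ⊆ Fr ∧
      (∀ q, (Fr'.filter (fun o => κ' (κ (pp o)) = q)).card ≤ 2) ∧
      (∀ o ∈ Fr, t o = 0 → o ∈ Fr') ∧
      (∀ (f : P → Fin 2) (n : N), FS Fr nd n (fun o => sg (f (κ' (κ (pp o)))) * t o) =
        FS Fr' nd n (fun o => sg (f (κ' (κ (pp o)))) * t o)) ∧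
      FrOne nd t Fr' := by
  obtain ⟨κ', F, hI, hF⟩ := chain_free (fun o : {o // o ∈ Fr} => κ (pp o.1)) (fun o => nd o.1)
    (fun o => t o.1) (fun o => ht o.1) (by
      intro p E hE
      rw [← card_map (f := Function.Embedding.subtype (fun o => o ∈ Fr))]
      refine le_trans (card_le_card ?_) (h p)
      intro o ho
      obtain ⟨o', ho', rfl⟩ := mem_map.1 ho
      exact mem_filter.2 ⟨o'.2, hE o' ho'⟩)
  have hmem : ∀ o, o ∈ F.map (Function.Embedding.subtype (fun o => o ∈ Fr)) ↔
      ∃ h : o ∈ Fr, (⟨o, h⟩ : {o // o ∈ Fr}) ∈ F := by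
    intro o
    rw [mem_map]
    constructor
    · rintro ⟨o', h1, rfl⟩
      exact ⟨o'.2, h1⟩
    · rintro ⟨h1, h2⟩
      exact ⟨⟨o, h1⟩, h2, rfl⟩
  have hfs : ∀ (G : Finset {o // o ∈ Fr}) (n : N) (g : O → ℝ),
      FS G (fun o => nd o.1) n (fun o => g o.1) =
        FS (G.map (Function.Embedding.subtype (fun o => o ∈ Fr))) nd n g := by
    intro G n g
    unfold FS
    rw [sum_filter, sum_filter, sum_map]
    rfl
  refine ⟨κ', F.map (Function.Embedding.subtype (fun o => o ∈ Fr)), ?_, ?_, ?_, ?_, ?_⟩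
  · intro o ho
    exact ((hmem o).1 ho).1
  · intro q
    rw [filter_map, card_map]
    exact hI.1 q
  · intro o ho h0
    exact (hmem o).2 ⟨ho, hI.2.1 ⟨o, ho⟩ h0⟩
  · intro f n
    have h1 := free_sum (fun o : {o // o ∈ Fr} => κ (pp o.1)) (fun o => nd o.1)
      (fun o => t o.1) κ' F hI f n
    have h2 : (univ : Finset {o // o ∈ Fr}).map (Function.Embedding.subtype (fun o => o ∈ Fr)) =
        Fr := by
      ext o
      rw [mem_map]
      constructor
      · rintro ⟨o', _, rfl⟩
        exact o'.2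
      · intro ho
        exact ⟨⟨o, ho⟩, mem_univ _, rfl⟩
    rw [hfs univ n (fun o => sg (f (κ' (κ (pp o)))) * t o), h2,
      hfs F n (fun o => sg (f (κ' (κ (pp o)))) * t o)] at h1
    exact h1
  · intro o1 h1 o2 h2
    obtain ⟨m1, m1'⟩ := (hmem o1).1 h1
    obtain ⟨m2, m2'⟩ := (hmem o2).1 h2
    exact hF _ m1' _ m2'

end stage

section four

variable {I : Type u} {I' : Type w}

/-- signed piece -/
noncomputable def pc (pr : I → I') (i' : I') (y : Option (I × Bool)) : ℝ :=
  match y with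
  | none => 0
  | some x => if pr x.1 = i' then s3 (some x) else 0

theorem sn_some (i : I) (x : I × Bool) : sn i (some x) = if x.1 = i then s3 (some x) else 0 := by
  rw [sn_eq]
  simp

theorem pc_eq [Fintype I] (pr : I → I') (i' : I') (y : Option (I × Bool)) :
    pc pr i' y = ∑ i ∈ univ.filter (fun i => pr i = i'), sn i y := by
  rcases y with _ | x
  · unfold pc
    symm
    refine sum_eq_zero fun i _ => ?_
    unfold sn sd
    simp
  · show (if pr x.1 = i' then s3 (some x) else 0) = _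
    rw [sum_congr rfl fun i _ => sn_some i x, sum_ite_eq]
    simp only [mem_filter, mem_univ, true_and]

/-- all functionals: sides, nodes, pieces -/
noncomputable def fp (pr : I → I') (x : ((I × Bool) ⊕ I) ⊕ I') (y : Option (I × Bool)) : ℝ :=
  match x with
  | Sum.inl x => fx x y
  | Sum.inr i' => pc pr i' y

variable {O P : Type v} [Fintype O]

/-- **Three stages**: sides, nodes, pieces. -/
theorem chain4 [Fintype I] (pr : I → I') (pp : O → P) (nd : O → Option (I × Bool)) (d : O → ℝ)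
    (hd : ∀ o, d o = 0 ∨ d o = 1 ∨ d o = -1)
    (h2 : ∀ p, ∀ E : Finset O, (∀ o ∈ E, pp o = p) → E.card ≤ 2) :
    ∃ κ : P → P,
      (∀ q, ∀ E : Finset O, (∀ o ∈ E, κ (pp o) = q ∧ nd o = none) → E.card ≤ 2) ∧
      (∀ (f : P → Fin 2) (x : ((I × Bool) ⊕ I) ⊕ I'),
        |∑ o, sg (f (κ (pp o))) * (fp pr x (nd o) * d o)| ≤ |∑ o, fp pr x (nd o) * d o|) ∧
      ∀ i' : I', 2 < |∑ o, pc pr i' (nd o) * d o| → ∃ f : P → Fin 2,
        |∑ o, sg (f (κ (pp o))) * (pc pr i' (nd o) * d o)| < |∑ o, pc pr i' (nd o) * d o| := by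
  have ht := t1_cases nd d hd
  have ht2 : ∀ o, s3 (nd o) * d o = 0 ∨ s3 (nd o) * d o = 1 ∨ s3 (nd o) * d o = -1 := by
    intro o
    rcases s3_cases (nd o) with h3 | h3 | h3 <;> rcases hd o with h4 | h4 | h4 <;>
      rw [h3, h4] <;> norm_num
  obtain ⟨k1, F1, _, c1, z1, e1, o1⟩ := stage pp (fun p => p) univ (fun q => h2 q _ fun o ho =>
    (mem_filter.1 ho).2) nd (t1 nd d) ht
  obtain ⟨k2, F2, _, c2, z2, e2, o2⟩ := stage pp k1 F1 c1 (fun o => Option.map Prod.fst (nd o))
    (fun o => s3 (nd o) * d o) ht2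
  obtain ⟨k3, F3, _, c3, z3, e3, o3⟩ := stage pp (fun p => k2 (k1 p)) F2 c2
    (fun o => Option.map (fun x : I × Bool => pr x.1) (nd o)) (fun o => s3 (nd o) * d o) ht2
  have k0 : sg (0 : Fin 2) = 1 := by simp [sg]
  -- sides
  have h3 : ∀ (f : P → Fin 2) (x : I × Bool),
      ∑ o, sg (f (k3 (k2 (k1 (pp o))))) * (sd x (nd o) * d o) =
      FS F1 nd (some x) (fun o => sg (f (k3 (k2 (k1 (pp o))))) * t1 nd d o) := by
    intro f x
    rw [sd_sum nd x (fun o => sg (f (k3 (k2 (k1 (pp o)))))) d]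
    exact e1 (fun p => f (k3 (k2 p))) (some x)
  have h3' : ∀ x : I × Bool, ∑ o, sd x (nd o) * d o = FS F1 nd (some x) (t1 nd d) := by
    intro x
    have h5 := h3 (fun _ => 0) x
    simp only [k0, one_mul] at h5
    exact h5
  -- nodes
  have h4 : ∀ (f : P → Fin 2) (i : I),
      ∑ o, sg (f (k3 (k2 (k1 (pp o))))) * (sn i (nd o) * d o) =
      FS F2 (fun o => Option.map Prod.fst (nd o)) (some i)
        (fun o => sg (f (k3 (k2 (k1 (pp o))))) * (s3 (nd o) * d o)) := by
    intro f i
    rw [← e2 (fun p => f (k3 p)) (some i)]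
    have h6 : ∀ o, sg (f (k3 (k2 (k1 (pp o))))) * (sn i (nd o) * d o) =
        sg (f (k3 (k2 (k1 (pp o))))) * (sd (i, false) (nd o) * d o) -
        sg (f (k3 (k2 (k1 (pp o))))) * (sd (i, true) (nd o) * d o) := by
      intro o
      unfold sn
      ring
    rw [sum_congr rfl fun o _ => h6 o, sum_sub_distrib, h3, h3]
    unfold FS
    rw [sum_filter, sum_filter, ← sum_sub_distrib, sum_filter]
    refine sum_congr rfl fun o _ => ?_
    unfold t1
    rcases h7 : nd o with _ | ⟨j, s⟩
    · simp [h7]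
    · by_cases hj : j = i
      · subst hj
        cases s <;> simp [s3, h7]
      · cases s <;> simp [hj, h7]
  have h4' : ∀ i : I, ∑ o, sn i (nd o) * d o = FS F2 (fun o => Option.map Prod.fst (nd o))
      (some i) (fun o => s3 (nd o) * d o) := by
    intro i
    have h7 := h4 (fun _ => 0) i
    simp only [k0, one_mul] at h7
    exact h7
  -- pieces
  have h5 : ∀ (f : P → Fin 2) (i' : I'),
      ∑ o, sg (f (k3 (k2 (k1 (pp o))))) * (pc pr i' (nd o) * d o) =
      FS F3 (fun o => Option.map (fun x : I × Bool => pr x.1) (nd o)) (some i')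
        (fun o => sg (f (k3 (k2 (k1 (pp o))))) * (s3 (nd o) * d o)) := by
    intro f i'
    rw [← e3 f (some i')]
    have h6 : ∀ o, sg (f (k3 (k2 (k1 (pp o))))) * (pc pr i' (nd o) * d o) =
        ∑ i ∈ univ.filter (fun i => pr i = i'),
          sg (f (k3 (k2 (k1 (pp o))))) * (sn i (nd o) * d o) := by
      intro o
      rw [pc_eq, sum_mul, mul_sum]
    rw [sum_congr rfl fun o _ => h6 o, sum_comm, sum_congr rfl fun i _ => h4 f i]
    have h9 : ∀ i, FS F2 (fun o => Option.map Prod.fst (nd o)) (some i)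
        (fun o => sg (f (k3 (k2 (k1 (pp o))))) * (s3 (nd o) * d o)) =
        ∑ o ∈ F2, if Option.map Prod.fst (nd o) = some i then
          sg (f (k3 (k2 (k1 (pp o))))) * (s3 (nd o) * d o) else 0 := by
      intro i
      symm
      refine FS_eq _ _ _ _ _ (fun o _ h => if_pos h) fun o _ h => if_neg h
    rw [sum_congr rfl fun i _ => h9 i, sum_comm]
    refine FS_eq _ _ _ _ _ (fun o _ h10 => ?_) fun o _ h10 => ?_
    · rcases h7 : nd o with _ | ⟨j, s⟩
      · simp [h7] at h10
      · have hj : pr j = i' := by simpa [h7] using h10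
        rw [sum_eq_single j]
        · simp
        · intro i _ hi
          simp [Ne.symm hi]
        · intro h8
          exact absurd ((mem_filter (p := fun i => pr i = i')).2 ⟨mem_univ j, hj⟩) h8
    · refine sum_eq_zero fun i hi => ?_
      rw [if_neg]
      intro h11
      apply h10
      rcases h7 : nd o with _ | ⟨j, s⟩
      · simp [h7] at h11
      · have hj : j = i := by simpa [h7] using h11
        have := (mem_filter.1 hi).2
        simp [hj, this]
  have h5' : ∀ i' : I', ∑ o, pc pr i' (nd o) * d o =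
      FS F3 (fun o => Option.map (fun x : I × Bool => pr x.1) (nd o)) (some i')
        (fun o => s3 (nd o) * d o) := by
    intro i'
    have h7 := h5 (fun _ => 0) i'
    simp only [k0, one_mul] at h7
    exact h7
  refine ⟨fun p => k3 (k2 (k1 p)), ?_, ?_, ?_⟩
  · intro q E hE
    refine le_trans (card_le_card fun o ho => ?_) (c3 q)
    have h7 := hE o ho
    refine mem_filter.2 ⟨z3 o (z2 o (z1 o (mem_univ _) ?_) ?_) ?_, h7.1⟩
    · unfold t1
      rw [if_pos h7.2]
    · rw [(s3_zero _).2 h7.2, zero_mul]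
    · rw [(s3_zero _).2 h7.2, zero_mul]
  · intro f x
    rcases x with (x | i) | i'
    · show |∑ o, sg (f (k3 (k2 (k1 (pp o))))) * (sd x (nd o) * d o)| ≤ |∑ o, sd x (nd o) * d o|
      rw [h3, h3']
      exact free_le nd (t1 nd d) ht F1 o1 _ _ fun o => (sg_abs _).le
    · show |∑ o, sg (f (k3 (k2 (k1 (pp o))))) * (sn i (nd o) * d o)| ≤ |∑ o, sn i (nd o) * d o|
      rw [h4, h4']
      exact free_le _ _ ht2 F2 o2 _ _ fun o => (sg_abs _).le
    · show |∑ o, sg (f (k3 (k2 (k1 (pp o))))) * (pc pr i' (nd o) * d o)| ≤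
        |∑ o, pc pr i' (nd o) * d o|
      rw [h5, h5']
      exact free_le _ _ ht2 F3 o3 _ _ fun o => (sg_abs _).le
  · intro i' hi
    rw [h5'] at hi
    obtain ⟨f, hf⟩ := free_lt pp _ _ ht2 (fun p => k3 (k2 (k1 p))) F3 c3 o3 _ hi
    exact ⟨f, by rw [h5, h5']; exact hf⟩

end four

end Pool.Agent.Work.MP_db9399_tkn
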