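import Pool.Agent.Work.MP_db9399_tkn_helper59.CH4

/-!
# MP_db9399, all scales: smoothing with windows on sides, nodes and pieces, levels (helper59)

The levels of the hypercube with the chains of `chain4_level`; the proofs of the levels follow
helper26 (LevelS).
-/

set_option autoImplicit false

namespace Pool.Agent.Work.MP_db9399_tkn

open Finset Classical
open Pool.Agent.Work.MP_db9399_tk
open Pool.Agent.Work.MP_db9399_ch (level2K)

universe u v w

/-- the tests: `k` (deviations), `g` (upper bounds) -/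
structure Ts3 {V I J J' C : Type*} [Fintype V] [Fintype J] [Fintype J'] [Fintype C]
    (H : SimpleGraph V) (φ : V → V → C) (nd : V → Option (I × Bool)) (k : J → V → ℝ)
    (g : J' → V → ℝ) (K0 S L : ℕ) (Λ M : ℝ) : Prop where
  hks : ∀ r v, k r v ≠ 0 → nd v = none
  hgs : ∀ j v, g j v ≠ 0 → nd v = none
  hK : ∀ r v, k r v ≠ 0 → (mis H φ v).card ≤ K0
  hK1 : ∀ j v, g j v ≠ 0 → (mis H φ v).card ≤ K0
  hS : ∀ r, (univ.filter (fun v => k r v ≠ 0)).card ≤ S
  hS1 : ∀ j, (univ.filter (fun v => g j v ≠ 0)).card ≤ S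
  hL : ∀ v, (univ.filter (fun r => k r v ≠ 0)).card ≤ L
  hL1 : ∀ v, (univ.filter (fun j => g j v ≠ 0)).card ≤ L
  hg0 : ∀ j v, 0 ≤ g j v
  hg1 : ∀ j v, g j v ≤ 1
  hL0 : 1 ≤ L
  hΛ0 : 0 ≤ Λ
  hΛ : 32 * ((S : ℝ) * K0 + 1) * L * (M + 1) ≤ Real.exp Λ

theorem Ts3.congr {V I J J' C : Type*} [Fintype V] [Fintype J] [Fintype J'] [Fintype C]
    {H : SimpleGraph V} {φ φ' : V → V → C} {nd : V → Option (I × Bool)} {k : J → V → ℝ}
    {g : J' → V → ℝ} {K0 S L : ℕ} {Λ M : ℝ} (hT : Ts3 H φ nd k g K0 S L Λ M) (h : PEC H φ)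
    (h' : PEC H φ') : Ts3 H φ' nd k g K0 S L Λ M := by
  have hm := mis_card_eq H φ φ' h h'
  exact { hT with
    hK := fun r v hv => by rw [hm v]; exact hT.hK r v hv
    hK1 := fun r v hv => by rw [hm v]; exact hT.hK1 r v hv }

/-- the functionals of the sides, nodes and pieces -/
noncomputable def f4 {V I I' : Type*} (pr : I → I') (nd : V → Option (I × Bool))
    (x : ((I × Bool) ⊕ I) ⊕ I') (v : V) : ℝ :=
  fp pr x (nd v)

theorem MonoX.refl {V : Type u} [Fintype V] {C : Type v} [Fintype C] {X : Type w}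
    (H : SimpleGraph V) (φ : V → V → C) (k : X → V → ℝ) : MonoX H φ φ k :=
  fun _ _ _ h => h

theorem MonoX.trans {V : Type u} [Fintype V] {C : Type v} [Fintype C] {X : Type w}
    {H : SimpleGraph V} {φ φ' φ'' : V → V → C} {k : X → V → ℝ} (h : MonoX H φ φ' k)
    (h' : MonoX H φ' φ'' k) : MonoX H φ φ'' k :=
  fun n lo hi hb => h' n lo hi (h n lo hi hb)

section level
variable {V : Type u} [Fintype V] {m : ℕ}

/-- the range does not grow in one level -/
theorem monoX_level {X : Type w} (i : Fin m) (H : SimpleGraph V) (φ : V → V → Cl m) (h : PEC H φ)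
    (F : Cl m × V → Fin 2) (k : X → V → ℝ)
    (hF : ∀ (x : X) (b : Cl m), |nz i H φ h F (k x) b| ≤
      |wt H φ (k x) b - wt H φ (k x) (fl i b)|) :
    MonoX H φ (nw i H φ h F) k := by
  intro n lo hi hb
  have key : ∀ b : Cl m, b i = false →
      (lo ≤ wt H (nw i H φ h F) (k n) b ∧ wt H (nw i H φ h F) (k n) b ≤ hi) ∧
      (lo ≤ wt H (nw i H φ h F) (k n) (fl i b) ∧
        wt H (nw i H φ h F) (k n) (fl i b) ≤ hi) := by
    intro b hbi
    have h1 := hF n b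
    rw [← nz_eq i H φ h F (k n) b hbi] at h1
    have h2 : wt H (nw i H φ h F) (k n) b + wt H (nw i H φ h F) (k n) (fl i b) =
        wt H φ (k n) b + wt H φ (k n) (fl i b) := by
      rw [wt_eq, wt_eq, wt_eq, wt_eq, ← sum_add_distrib, ← sum_add_distrib]
      refine sum_congr rfl fun v _ => ?_
      rw [← mul_add, ← mul_add, xm_add]
    obtain ⟨a1, a2⟩ := hb b
    obtain ⟨a3, a4⟩ := hb (fl i b)
    obtain ⟨a5, a6⟩ := abs_le.1 h1
    rcases abs_cases (wt H φ (k n) b - wt H φ (k n) (fl i b)) with ⟨a7, _⟩ | ⟨a7, _⟩ <;>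
      rw [a7] at a5 a6 <;> refine ⟨⟨?_, ?_⟩, ?_, ?_⟩ <;> linarith
  intro b
  cases hbi : b i
  · exact (key b hbi).1
  · have h1 := (key (fl i b) (by rw [fl_same, hbi]; rfl)).2
    rw [fl_fl] at h1
    exact h1

/-- all levels -/
theorem levels4 {I : Type v} [Fintype I] {I' : Type w} (pr : I → I') (H : SimpleGraph V) (φ : V → V → Cl m) (h : PEC H φ)
    (nd : V → Option (I × Bool)) {J J' : Type u} [Fintype J] [Fintype J'] (k : J → V → ℝ)
    (g : J' → V → ℝ) (K0 S L : ℕ) (Λ : ℝ) (hT : Ts3 H φ nd k g K0 S L Λ (2 ^ m))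
    (i : ℕ) (hi : i ≤ m) :
    ∃ φ' : V → V → Cl m, PEC H φ' ∧
      (∀ r, ∑ a, |cs H φ' (k r) i a - (∑ v, k r v * ((mis H φ v).card : ℝ)) / 2 ^ i| ≤
        2 ^ m / 2 ^ i * ∑ j ∈ range i, Real.sqrt (4 * K2 H φ (k r) * (2 ^ j * Real.log 2 + Λ))) ∧
      (∀ j a, Real.sqrt (cs H φ' (g j) i a) ≤
        Real.sqrt ((∑ v, g j v * ((mis H φ v).card : ℝ)) / 2 ^ i) +
          (1 + Real.sqrt 2) * Real.sqrt Λ) ∧ MonoX H φ φ' (f4 pr nd) := by
  have hΛ0 := hT.hΛ0
  induction i with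
  | zero =>
    have h1 := Real.sqrt_nonneg Λ
    have h2 := Real.sqrt_nonneg 2
    have h3 : 0 ≤ (1 + Real.sqrt 2) * Real.sqrt Λ := by positivity
    refine ⟨φ, h, fun r => ?_, fun j a => ?_, MonoX.refl H φ _⟩
    · rw [Finset.range_zero, Finset.sum_empty, mul_zero]
      refine le_of_eq (Finset.sum_eq_zero fun a _ => ?_)
      rw [cs_zero, pow_zero, div_one, sub_self, abs_zero]
    · rw [cs_zero, pow_zero, div_one]
      linarith
  | succ i ih =>
    obtain ⟨φ', h', h1, h2, h2n⟩ := ih (by omega)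
    have hm : ∀ v, (mis H φ' v).card = (mis H φ v).card := mis_card_eq H φ φ' h h'
    have hT' := hT.congr h h'
    obtain ⟨κ, _, hκ, hN⟩ := chain4_level pr (⟨i, by omega⟩ : Fin m) H φ' h' nd
    obtain ⟨f, h3, h4⟩ := level2K (⟨i, by omega⟩ : Fin m) H φ' h' (fun v => s3 (nd v)) κ
      (fun _ => 0) hκ k g
      (fun r v hv => (s3_zero _).2 (hT.hks r v hv)) (fun j v hv => (s3_zero _).2 (hT.hgs j v hv))
      (fun j a => cs H φ' (g j) i a) K0 S L Λ hT'.hK hT'.hK1 hT.hS hT.hS1 hT.hL hT.hL1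
      (fun j a => cs_nonneg H φ' (g j) (hT.hg0 j) i a)
      (fun j a => Pool.Agent.Work.MP_db9399_ch.vs_cs _ H φ' (g j) a (hT.hg0 j) (hT.hg1 j))
      hT.hL0 hΛ0 hT.hΛ
    refine ⟨nw (⟨i, by omega⟩ : Fin m) H φ' h' fun p => 0 + f (κ p), nw_pec _ H φ' h' _,
      fun r => ?_, fun j a => ?_, h2n.trans (monoX_level _ H φ' h' _ (f4 pr nd) fun x b => hN f x b)⟩
    · set Wr := ∑ v, k r v * ((mis H φ v).card : ℝ) with hWr
      have h5 := h3 r
      rw [K2_eq H φ φ' h h' (k r)] at h5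
      have h6 := h1 r
      set ψ := nw (⟨i, by omega⟩ : Fin m) H φ' h' fun p => 0 + f (κ p) with hψ
      have h7 : ∀ a, |cs H ψ (k r) (i + 1) a - Wr / 2 ^ (i + 1)| ≤
          |cs H ψ (k r) (i + 1) a - 1 / 2 * cs H φ' (k r) i a| +
            1 / 2 * |cs H φ' (k r) i a - Wr / 2 ^ i| := by
        intro a
        have h8 : cs H ψ (k r) (i + 1) a -
          Wr / 2 ^ (i + 1) = (cs H ψ (k r) (i + 1) a -
            1 / 2 * cs H φ' (k r) i a) + 1 / 2 * (cs H φ' (k r) i a - Wr / 2 ^ i) := by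
          rw [pow_succ]
          field_simp
          ring
        rw [h8]
        refine (abs_add_le _ _).trans (add_le_add_right (le_of_eq ?_) _)
        rw [abs_mul, abs_of_nonneg (by norm_num : (0 : ℝ) ≤ 1 / 2)]
      refine (Finset.sum_le_sum fun a _ => h7 a).trans ?_
      rw [Finset.sum_add_distrib, ← Finset.mul_sum, Finset.sum_range_succ]
      have h9 : (2 : ℝ) ^ m / 2 ^ (i + 1) = 1 / 2 * (2 ^ m / 2 ^ i) := by
        rw [pow_succ]
        field_simp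
      refine (add_le_add h5 (mul_le_mul_of_nonneg_left h6 (by norm_num : (0 : ℝ) ≤ 1 / 2))).trans
        (le_of_eq ?_)
      rw [h9]
      ring
    · set Gj := ∑ v, g j v * ((mis H φ v).card : ℝ) with hGj
      have hG0 : 0 ≤ Gj :=
        Finset.sum_nonneg fun v _ => mul_nonneg (hT.hg0 j v) (Nat.cast_nonneg _)
      have h5 := (abs_le.1 (h4 j a)).2
      have h6 := sqrt_step (cs H φ' (g j) i a)
        (cs H (nw (⟨i, by omega⟩ : Fin m) H φ' h' fun p => 0 + f (κ p)) (g j) (i + 1) a) Λ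
        (Real.sqrt (Gj / 2 ^ i)) (cs_nonneg H φ' (g j) (hT.hg0 j) i a) hΛ0
        (by linarith) (h2 j a)
      refine h6.trans (le_of_eq ?_)
      rw [← Real.sqrt_div (by positivity), pow_succ, div_div]

/-- `2 ^ m` colours -/
theorem smooth4 {I : Type v} [Fintype I] {I' : Type w} (pr : I → I') (H : SimpleGraph V) (φ : V → V → Cl m) (h : PEC H φ)
    (nd : V → Option (I × Bool)) {J J' : Type u} [Fintype J] [Fintype J'] (k : J → V → ℝ)
    (g : J' → V → ℝ) (K0 S L : ℕ) (Λ : ℝ) (hT : Ts3 H φ nd k g K0 S L Λ (2 ^ m)) :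
    ∃ φ' : V → V → Cl m, PEC H φ' ∧
      (∀ r, ∑ b, |wt H φ' (k r) b - (∑ v, k r v * ((mis H φ v).card : ℝ)) / 2 ^ m| ≤
        Real.sqrt (∑ v, k r v ^ 2 * ((mis H φ v).card : ℝ)) *
          (5 * Real.sqrt (2 ^ m) + 2 * m * Real.sqrt Λ)) ∧
      (∀ j b, wt H φ' (g j) b ≤
        2 * ((∑ v, g j v * ((mis H φ v).card : ℝ)) / 2 ^ m) + 12 * Λ) ∧
      MonoX H φ φ' (f4 pr nd) := by
  obtain ⟨φ', h', h1, h2, h3⟩ := levels4 pr H φ h nd k g K0 S L Λ hT m le_rfl
  refine ⟨φ', h', fun r => ?_, fun j b => ?_, h3⟩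
  · have h3 := h1 r
    simp only [cs_full] at h3
    refine h3.trans ?_
    rw [div_self (by positivity), one_mul]
    exact noise_sum (K2 H φ (k r)) Λ (K2_nonneg H φ (k r)) hT.hΛ0 m
  · have h4 := h2 j b
    rw [cs_full] at h4
    exact sq_bound _ _ Λ (wt_nonneg H φ' (g j) (hT.hg0 j) b) (div_nonneg (Finset.sum_nonneg
      fun v _ => mul_nonneg (hT.hg0 j v) (Nat.cast_nonneg _)) (by positivity)) hT.hΛ0 h4

end level

section cube
variable {V : Type u} [Fintype V] {C : Type v} [Fintype C]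

/-- one cube: the `2 ^ m` colours of `A` -/
theorem cube4 {m : ℕ} {I : Type w} [Fintype I] {I' : Type w} (pr : I → I') (H : SimpleGraph V) (φ : V → V → C) (h : PEC H φ)
    (A : Finset C) (hA : A.card = 2 ^ m) (nd : V → Option (I × Bool)) {J J' : Type u} [Fintype J]
    [Fintype J'] (k : J → V → ℝ) (g : J' → V → ℝ) (K0 S L : ℕ) (Λ M : ℝ) (hM : 2 ^ m ≤ M)
    (hT : Ts3 H φ nd k g K0 S L Λ M) :
    ∃ φ' : V → V → C, PEC H φ' ∧ (∀ b, b ∉ A → ∀ v, b ∈ mis H φ' v ↔ b ∈ mis H φ v) ∧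
      (∀ r, ∑ b ∈ A, |wt H φ' (k r) b - (∑ c ∈ A, wt H φ (k r) c) / 2 ^ m| ≤
        Real.sqrt (KK H φ (k r)) * (5 * Real.sqrt (2 ^ m) + 2 * m * Real.sqrt Λ)) ∧
      (∀ j, ∀ b ∈ A, wt H φ' (g j) b ≤ 2 * ((∑ c ∈ A, wt H φ (g j) c) / 2 ^ m) + 12 * Λ) ∧
      MonoX H φ φ' (f4 pr nd) := by
  have hcard : Fintype.card (Cl m) = Fintype.card A := by
    rw [Fintype.card_fun, Fintype.card_bool, Fintype.card_fin, Fintype.card_coe, hA]
  obtain ⟨e⟩ : Nonempty (Cl m ≃ A) := ⟨Fintype.equivOfCardEq hcard⟩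
  obtain ⟨He, φe, hpe, hmis, hlift⟩ := lift_cube H φ h A e
  have hmc : ∀ v, (mis He φe v).card ≤ (mis H φ v).card := by
    intro v
    refine Finset.card_le_card_of_injOn (fun b => ((e b : A) : C)) ?_ ?_
    · intro b hb
      exact (hmis b v).1 hb
    · intro b _ b' _ hbb
      exact e.injective (Subtype.ext hbb)
  have hTe : Ts3 He φe nd k g K0 S L Λ (2 ^ m) :=
    { hks := hT.hks, hgs := hT.hgs
      hK := fun r v hv => (hmc v).trans (hT.hK r v hv)
      hK1 := fun r v hv => (hmc v).trans (hT.hK1 r v hv)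
      hS := hT.hS, hS1 := hT.hS1, hL := hT.hL, hL1 := hT.hL1
      hg0 := hT.hg0, hg1 := hT.hg1
      hL0 := hT.hL0, hΛ0 := hT.hΛ0
      hΛ := le_trans (mul_le_mul_of_nonneg_left (by linarith) (by positivity)) hT.hΛ }
  obtain ⟨ψ, hψ, h1, h2, h2n⟩ := smooth4 pr He φe hpe nd k g K0 S L Λ hTe
  obtain ⟨φ', hpec, hout, hmis'⟩ := hlift ψ hψ
  have hsum : ∀ F : C → ℝ, ∑ c ∈ A, F c = ∑ b : Cl m, F ((e b : A) : C) := by
    intro F
    rw [← Finset.sum_coe_sort A F]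
    exact (Equiv.sum_comp e (fun c : A => F (c : C))).symm
  have hwt : ∀ (k : V → ℝ) (b : Cl m), wt H φ k ((e b : A) : C) = wt He φe k b := fun k b =>
    (wt_congr He H φe φ k b _ fun v => hmis b v).symm
  have hwt' : ∀ (k : V → ℝ) (b : Cl m), wt H φ' k ((e b : A) : C) = wt He ψ k b := fun k b =>
    (wt_congr He H ψ φ' k b _ fun v => hmis' b v).symm
  have htot : ∀ k : V → ℝ, ∑ c ∈ A, wt H φ k c = ∑ v, k v * ((mis He φe v).card : ℝ) := by
    intro k
    rw [hsum, ← sum_wt]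
    exact Finset.sum_congr rfl fun b _ => hwt k b
  refine ⟨φ', hpec, hout, ?_, ?_, ?_⟩
  · intro r
    rw [hsum, htot]
    simp only [hwt']
    refine (h1 r).trans (mul_le_mul_of_nonneg_right (Real.sqrt_le_sqrt ?_) (by
      have := hT.hΛ0
      positivity))
    refine Finset.sum_le_sum fun v _ => mul_le_mul_of_nonneg_left ?_ (sq_nonneg _)
    exact_mod_cast hmc v
  · intro j b hb
    have h3 := h2 j (e.symm ⟨b, hb⟩)
    rw [← hwt', Equiv.apply_symm_apply, ← htot] at h3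
    exact h3
  · intro n lo hi hb
    have hin : ∀ b : Cl m, lo ≤ wt He ψ (f4 pr nd n) b ∧ wt He ψ (f4 pr nd n) b ≤ hi := by
      refine h2n n lo hi fun b => ?_
      rw [← hwt]
      exact hb _
    intro b
    by_cases hbA : b ∈ A
    · have h3 := hin (e.symm ⟨b, hbA⟩)
      rw [← hwt', Equiv.apply_symm_apply] at h3
      exact h3
    · rw [wt_congr H H φ' φ (f4 pr nd n) b b (hout b hbA)]
      exact hb b

end cube

end Pool.Agent.Work.MP_db9399_tkn
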