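import Pool.Agent.Work.MP_db9399_tkn_helper59.SM4
import Pool.Agent.Work.MP_db9399_tk_helper59.SmoothP

/-!
# MP_db9399, all scales: smoothing with windows on sides, nodes and pieces, palettes of any size (helper59)
-/

set_option autoImplicit false

namespace Pool.Agent.Work.MP_db9399_tkn

open Finset Classical
open Pool.Agent.Work.MP_db9399_tk

universe u v w

section smoothP
variable {V : Type u} [Fintype V] {C : Type v} [Fintype C]

/-- **Token smoothing with windows**, any number of colours. -/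
theorem smoothP4 {I : Type w} [Fintype I] {I' : Type w} (pr : I → I') (H : SimpleGraph V) (φ : V → V → C) (h : PEC H φ)
    (nd : V → Option (I × Bool)) {J J' : Type u} [Fintype J] [Fintype J'] (k : J → V → ℝ)
    (g : J' → V → ℝ) (K0 S L : ℕ) (Λ : ℝ) (hC : 0 < Fintype.card C)
    (hT : Ts3 H φ nd k g K0 S L Λ (Fintype.card C)) :
    ∃ φ' : V → V → C, PEC H φ' ∧ MonoX H φ φ' (f4 pr nd) ∧
      (∀ r, ∑ b, |wt H φ' (k r) b - (∑ v, k r v * ((mis H φ v).card : ℝ)) / Fintype.card C| ≤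
        Real.sqrt (∑ v, k r v ^ 2 * ((mis H φ v).card : ℝ)) *
          (301 * Real.sqrt (Fintype.card C) +
            120 * (Nat.log 2 (Fintype.card C)) * Real.sqrt Λ)) ∧
      ∀ j b, wt H φ' (g j) b ≤
        4 * (∑ v, g j v * ((mis H φ v).card : ℝ)) / Fintype.card C + 12 * Λ := by
  set P := Fintype.card C with hP
  set m := Nat.log 2 P with hm
  have hn1 : 2 ^ m ≤ P := Nat.pow_log_le_self 2 (by omega)
  have hn2 : P < 2 * 2 ^ m := by
    have := Nat.lt_pow_succ_log_self (b := 2) (by norm_num) P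
    rw [pow_succ, mul_comm] at this
    exact this
  have hn1' : (2 : ℝ) ^ m ≤ P := by exact_mod_cast hn1
  have hn2' : (P : ℝ) ≤ 2 * 2 ^ m := by exact_mod_cast hn2.le
  have hP0 : (0 : ℝ) < P := by exact_mod_cast hC
  have hn0 : 0 < 2 ^ m := by positivity
  obtain ⟨A, M, B, hA, hM, hB, hAB, hAM, hMB⟩ := three_sets (C := C) (2 ^ m) hn1 hn2
  have hΛ0 := hT.hΛ0
  have hg0 := hT.hg0
  set U : J' → ℝ := fun j => 2 * (∑ v, g j v * ((mis H φ v).card : ℝ)) / 2 ^ m + 12 * Λ with hU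
  set N : J → ℝ := fun r => Real.sqrt (KK H φ (k r)) *
    (5 * Real.sqrt (2 ^ m) + 2 * m * Real.sqrt Λ) with hN
  have hN0 : ∀ r, 0 ≤ N r := fun r => by
    simp only [hN]
    positivity
  -- one cube
  have hcube : ∀ (ψ : V → V → C) (D X : Finset C), PEC H ψ → X.card = 2 ^ m →
      (∀ j, ∀ b ∈ D, wt H ψ (g j) b ≤ U j) → ∃ ψ' : V → V → C, PEC H ψ' ∧
      (∀ r, ∑ b, |wt H ψ' (k r) b - Ea X (wt H ψ (k r)) b| ≤ N r) ∧
      (∀ j, ∀ b, b ∈ D ∨ b ∈ X → wt H ψ' (g j) b ≤ U j) ∧ MonoX H ψ ψ' (f4 pr nd) := by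
    intro ψ D X hψ hX hD
    have hmc : ∀ v, (mis H ψ v).card = (mis H φ v).card := mis_card_eq H φ ψ h hψ
    obtain ⟨ψ', hψ', h1, h2, h3, h3m⟩ := cube4 pr H ψ hψ X hX nd k g K0 S L Λ P hn1' (hT.congr h hψ)
    have hout : ∀ (k : V → ℝ) (b : C), b ∉ X → wt H ψ' k b = wt H ψ k b := fun k b hb =>
      wt_congr H H ψ' ψ k b b (h1 b hb)
    refine ⟨ψ', hψ', ?_, ?_, h3m⟩
    · intro r
      have h4 := h2 r
      rw [KK_eq H φ ψ h hψ (k r)] at h4
      refine le_trans (le_of_eq ?_) h4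
      rw [← Finset.sum_add_sum_compl X fun b => |wt H ψ' (k r) b - Ea X (wt H ψ (k r)) b|]
      have h5 : ∑ b ∈ Xᶜ, |wt H ψ' (k r) b - Ea X (wt H ψ (k r)) b| = 0 := by
        refine Finset.sum_eq_zero fun b hb => ?_
        have hb' := Finset.mem_compl.1 hb
        rw [hout (k r) b hb', Ea_out X _ b hb', sub_self, abs_zero]
      rw [h5, add_zero]
      refine Finset.sum_congr rfl fun b hb => ?_
      rw [Ea_in X _ b hb, hX]
      push_cast
      rfl
    · intro j b hb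
      by_cases hbX : b ∈ X
      · refine (h3 j b hbX).trans ?_
        simp only [hU]
        rw [← mul_div_assoc]
        refine add_le_add_left (div_le_div_of_nonneg_right (mul_le_mul_of_nonneg_left ?_
          (by norm_num)) (by positivity)) _
        calc ∑ c ∈ X, wt H ψ (g j) c ≤ ∑ c, wt H ψ (g j) c :=
              Finset.sum_le_sum_of_subset_of_nonneg (Finset.subset_univ _)
                fun c _ _ => wt_nonneg H ψ (g j) (hg0 j) c
          _ = ∑ v, g j v * ((mis H φ v).card : ℝ) := by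
            rw [sum_wtC]
            refine Finset.sum_congr rfl fun v _ => ?_
            rw [hmc v]
      · rw [hout (g j) b hbX]
        exact hD j b (hb.resolve_right hbX)
  -- one round
  have hround : ∀ ψ : V → V → C, PEC H ψ → ∃ ψ' : V → V → C, PEC H ψ' ∧
      (∀ r, ∑ b, |wt H ψ' (k r) b - Q5 A M B (wt H ψ (k r)) b| ≤ 5 * N r) ∧
      (∀ j, ∀ b, wt H ψ' (g j) b ≤ U j) ∧ MonoX H ψ ψ' (f4 pr nd) := by
    intro ψ hψ
    obtain ⟨ψ1, p1, q1, r1, m1⟩ := hcube ψ ∅ A hψ hA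
      (fun j b hb => absurd hb (Finset.notMem_empty _))
    obtain ⟨ψ2, p2, q2, r2, m2⟩ := hcube ψ1 A M p1 hM (fun j b hb => r1 j b (Or.inr hb))
    obtain ⟨ψ3, p3, q3, r3, m3⟩ := hcube ψ2 A B p2 hB (fun j b hb => r2 j b (Or.inl hb))
    have r3' : ∀ j, ∀ b ∈ (univ : Finset C), wt H ψ3 (g j) b ≤ U j := fun j b _ =>
      r3 j b (hAB b)
    obtain ⟨ψ4, p4, q4, r4, m4⟩ := hcube ψ3 univ M p3 hM r3'
    obtain ⟨ψ5, p5, q5, r5, m5⟩ := hcube ψ4 univ A p4 hA
      (fun j b hb => r4 j b (Or.inl hb))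
    refine ⟨ψ5, p5, fun r => ?_, fun j b => r5 j b (Or.inl (Finset.mem_univ b)),
      (((m1.trans m2).trans m3).trans m4).trans m5⟩
    have s2 := l1_tri _ _ _ _ _ (q2 r) (l1_Ea M _ _ _ (q1 r))
    have s3 := l1_tri _ _ _ _ _ (q3 r) (l1_Ea B _ _ _ s2)
    have s4 := l1_tri _ _ _ _ _ (q4 r) (l1_Ea M _ _ _ s3)
    have s5 := l1_tri _ _ _ _ _ (q5 r) (l1_Ea A _ _ _ s4)
    refine s5.trans (le_of_eq ?_)
    ring
  -- many rounds
  set W : J → ℝ := fun r => (∑ v, k r v * ((mis H φ v).card : ℝ)) / P with hW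
  have hmass : ∀ (ψ : V → V → C), PEC H ψ → ∀ r, ∑ c, (wt H ψ (k r) c - W r) = 0 := by
    intro ψ hψ r
    rw [Finset.sum_sub_distrib, sum_wtC, Finset.sum_const, Finset.card_univ, nsmul_eq_mul, ← hP]
    have h1 : ∑ v, k r v * ((mis H ψ v).card : ℝ) = ∑ v, k r v * ((mis H φ v).card : ℝ) := by
      refine Finset.sum_congr rfl fun v _ => ?_
      rw [mis_card_eq H φ ψ h hψ v]
    rw [h1]
    simp only [hW]
    field_simp
    ring
  have hrounds : ∀ R : ℕ, ∃ ψ : V → V → C, PEC H ψ ∧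
      (∀ r, ∑ b, |wt H ψ (k r) b - W r| ≤
        (11 / 12) ^ R * (2 * (Real.sqrt ((S : ℝ) * K0) * Real.sqrt (KK H φ (k r)))) +
          60 * N r) ∧ (R ≠ 0 → ∀ j b, wt H ψ (g j) b ≤ U j) ∧ MonoX H φ ψ (f4 pr nd) := by
    intro R
    induction R with
    | zero =>
      refine ⟨φ, h, fun r => ?_, fun h0 => absurd rfl h0, MonoX.refl H φ _⟩
      rw [pow_zero, one_mul]
      have h1 := dev0 H φ (k r) K0 S (hT.hK r) (hT.hS r)
      have h2 : ∑ _b : C, |W r| ≤ Real.sqrt ((S : ℝ) * K0) * Real.sqrt (KK H φ (k r)) := by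
        refine le_trans ?_ h1
        rw [Finset.sum_const, Finset.card_univ, nsmul_eq_mul, ← hP]
        simp only [hW]
        rw [abs_div, Nat.abs_cast, ← sum_wtC]
        rw [mul_div_cancel₀ _ hP0.ne']
        exact Finset.abs_sum_le_sum_abs _ _
      have h3 : ∑ b, |wt H φ (k r) b - W r| ≤ ∑ b, |wt H φ (k r) b| + ∑ _b : C, |W r| := by
        rw [← Finset.sum_add_distrib]
        exact Finset.sum_le_sum fun b _ => abs_sub _ _
      have := hN0 r
      linarith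
    | succ R ih =>
      obtain ⟨ψ, hψ, h1, h2, hm1⟩ := ih
      obtain ⟨ψ', hψ', h3, h4, hm2⟩ := hround ψ hψ
      refine ⟨ψ', hψ', fun r => ?_, fun _ => h4, hm1.trans hm2⟩
      have h5 := Q5_contr A M B (2 ^ m) hn0 hA hM hB hAB hAM hMB
        (fun c => wt H ψ (k r) c - W r) (hmass ψ hψ r)
      have h6 : ∀ b, Q5 A M B (fun c => wt H ψ (k r) c - W r) b =
          Q5 A M B (wt H ψ (k r)) b - W r := by
        intro b
        have h7 := congrFun (Q5_sub A M B (wt H ψ (k r)) fun _ => W r) b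
        rw [h7]
        simp only [Q5_const]
      simp only [h6] at h5
      have h8 := l1_tri _ _ _ _ _ (h3 r) h5
      refine h8.trans ?_
      have h9 := h1 r
      rw [pow_succ]
      linarith
  obtain ⟨R, hR⟩ : ∃ R : ℕ, (11 / 12 : ℝ) ^ R * (2 * Real.sqrt ((S : ℝ) * K0)) ≤ 1 := by
    obtain ⟨R, hR⟩ := exists_pow_lt_of_lt_one (y := (11 / 12 : ℝ))
      (x := 1 / (2 * Real.sqrt ((S : ℝ) * K0) + 1)) (by positivity) (by norm_num)
    refine ⟨R, ?_⟩
    have h1 := mul_le_mul_of_nonneg_right hR.le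
      (by positivity : 0 ≤ 2 * Real.sqrt ((S : ℝ) * K0))
    refine h1.trans ?_
    rw [div_mul_eq_mul_div, one_mul, div_le_one (by positivity)]
    linarith
  obtain ⟨ψ, hψ, h1, h2, hmono⟩ := hrounds (R + 1)
  have hm0 : (0 : ℝ) ≤ m := Nat.cast_nonneg _
  refine ⟨ψ, hψ, hmono, fun r => ?_, fun j b => ?_⟩
  · refine (h1 r).trans ?_
    have hs := Real.sqrt_nonneg (KK H φ (k r))
    have hsP : Real.sqrt (2 ^ m) ≤ Real.sqrt P := Real.sqrt_le_sqrt hn1'
    have hsP1 : 1 ≤ Real.sqrt P := by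
      rw [Real.one_le_sqrt]
      exact_mod_cast hC
    have h3 : (11 / 12 : ℝ) ^ (R + 1) * (2 * (Real.sqrt ((S : ℝ) * K0) *
        Real.sqrt (KK H φ (k r)))) ≤ 1 * Real.sqrt (KK H φ (k r)) := by
      have h4 : (11 / 12 : ℝ) ^ (R + 1) * (2 * Real.sqrt ((S : ℝ) * K0)) ≤ 1 := by
        refine le_trans ?_ hR
        refine mul_le_mul_of_nonneg_right ?_ (by positivity)
        exact pow_le_pow_of_le_one (by norm_num) (by norm_num) (Nat.le_succ R)
      have h5 := mul_le_mul_of_nonneg_right h4 hs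
      refine le_trans (le_of_eq ?_) h5
      ring
    refine (add_le_add_left h3 _).trans ?_
    have h6 : (∑ v, k r v ^ 2 * ((mis H φ v).card : ℝ)) = KK H φ (k r) := rfl
    rw [h6]
    simp only [hN]
    have h7 : 1 * Real.sqrt (KK H φ (k r)) + 60 * (Real.sqrt (KK H φ (k r)) *
        (5 * Real.sqrt (2 ^ m) + 2 * m * Real.sqrt Λ)) = Real.sqrt (KK H φ (k r)) *
        (1 + 300 * Real.sqrt (2 ^ m) + 120 * m * Real.sqrt Λ) := by ring
    rw [h7]
    refine mul_le_mul_of_nonneg_left ?_ hs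
    linarith
  · refine (h2 (Nat.succ_ne_zero R) j b).trans ?_
    simp only [hU]
    have hG0 : 0 ≤ ∑ v, g j v * ((mis H φ v).card : ℝ) :=
      Finset.sum_nonneg fun v _ => mul_nonneg (hg0 j v) (Nat.cast_nonneg _)
    refine add_le_add_left ?_ _
    rw [div_le_div_iff₀ (by positivity) hP0]
    nlinarith

end smoothP

end Pool.Agent.Work.MP_db9399_tkn
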